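import Mathlib
import Pool.Agent.H65T.NC.Ins

set_option autoImplicit false

/-!
# Hamiltonian cycles for conjugation-closed generating sets: covering all cosets
-/

namespace Pool.Agent.H65T.NC

open Finset

universe u

/-- An injective function without proper closed subsets runs through everything. -/
theorem orbit_all {α : Type u} [Fintype α] (τ : α → α) (hτ : Function.Injective τ)
    (hirr : ∀ S : Set α, S.Nonempty → (∀ x ∈ S, τ x ∈ S) → S = Set.univ) (a : α) :
    Set.InjOn (fun j => τ^[j] a) (Set.Iio (Fintype.card α)) ∧
      ∀ b, ∃ j < Fintype.card α, τ^[j] a = b := by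
  classical
  have hper : a ∈ Function.periodicPts τ := hτ.mem_periodicPts a
  have hpos : 0 < Function.minimalPeriod τ a := Function.minimalPeriod_pos_of_mem_periodicPts hper
  have hS : {b | ∃ j < Function.minimalPeriod τ a, τ^[j] a = b} = Set.univ := by
    refine hirr {b | ∃ j < Function.minimalPeriod τ a, τ^[j] a = b} ⟨a, 0, hpos, rfl⟩ ?_
    rintro b ⟨j, hj, rfl⟩
    by_cases h : j + 1 = Function.minimalPeriod τ a
    · refine ⟨0, hpos, ?_⟩
      rw [← Function.iterate_succ_apply' τ j a, Nat.succ_eq_add_one, h,
        Function.iterate_minimalPeriod]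
      rfl
    · exact ⟨j + 1, by omega, Function.iterate_succ_apply' τ j a⟩
  have hinj := Function.iterate_injOn_Iio_minimalPeriod (f := τ) (x := a)
  have hcard : Function.minimalPeriod τ a = Fintype.card α := by
    have h1 : ((range (Function.minimalPeriod τ a)).image (fun j => τ^[j] a)).card =
        Function.minimalPeriod τ a := by
      rw [card_image_of_injOn, card_range]
      intro i hi j hj hij
      exact hinj (by simpa using hi) (by simpa using hj) hij
    have h2 : (range (Function.minimalPeriod τ a)).image (fun j => τ^[j] a) = univ := by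
      rw [eq_univ_iff_forall]
      intro b
      have : b ∈ {b | ∃ j < Function.minimalPeriod τ a, τ^[j] a = b} := by rw [hS]; trivial
      obtain ⟨j, hj, hb⟩ := this
      exact mem_image.2 ⟨j, mem_range.2 hj, hb⟩
    rw [← h1, h2, card_univ]
  rw [hcard] at hinj hS
  refine ⟨hinj, fun b => ?_⟩
  have : b ∈ {b | ∃ j < Fintype.card α, τ^[j] a = b} := by rw [hS]; trivial
  exact this

variable {G : Type u} [Group G]

open Classical in
/-- The `M`-orbit of a coset. -/
noncomputable def orb (M : Subgroup G) [Fintype M] (K : G ⧸ M) : Finset (G ⧸ M) :=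
  univ.image (fun h : M => (h : G) • K)

theorem mem_orb {M : Subgroup G} [Fintype M] {K K' : G ⧸ M} :
    K' ∈ orb M K ↔ ∃ h : M, (h : G) • K = K' := by
  simp [orb]

theorem self_mem_orb {M : Subgroup G} [Fintype M] (K : G ⧸ M) : K ∈ orb M K :=
  mem_orb.2 ⟨1, by simp⟩

theorem orb_symm {M : Subgroup G} [Fintype M] {K K' : G ⧸ M} (h : K' ∈ orb M K) :
    K ∈ orb M K' := by
  obtain ⟨g, rfl⟩ := mem_orb.1 h
  exact mem_orb.2 ⟨g⁻¹, by simp⟩

theorem orb_trans {M : Subgroup G} [Fintype M] {K K' K'' : G ⧸ M} (h : K' ∈ orb M K)
    (h' : K'' ∈ orb M K') : K'' ∈ orb M K := by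
  obtain ⟨g, rfl⟩ := mem_orb.1 h
  obtain ⟨g', rfl⟩ := mem_orb.1 h'
  exact mem_orb.2 ⟨g' * g, by simp [mul_smul]⟩

theorem orb_eq {M : Subgroup G} [Fintype M] {K K' : G ⧸ M} (h : K' ∈ orb M K) :
    orb M K' = orb M K := by
  ext L
  exact ⟨fun hL => orb_trans h hL, fun hL => orb_trans (orb_symm h) hL⟩

theorem half_bound {M : Subgroup G} [Fintype M] [DecidableEq (G ⧸ M)] {K K' : G ⧸ M} (h0 : M)
    (hne : (h0 : G) • K ≠ K) :
    2 * (univ.filter (fun h : M => (h : G) • K = K')).card ≤ Fintype.card M := by
  classical
  have hd : Disjoint (univ.filter (fun h : M => (h : G) • K = K'))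
      ((univ.filter (fun h : M => (h : G) • K = K')).image (fun h => h * h0)) := by
    rw [disjoint_left]
    intro h hh hh'
    rw [mem_filter] at hh
    rw [mem_image] at hh'
    obtain ⟨g, hg, rfl⟩ := hh'
    rw [mem_filter] at hg
    apply hne
    have h1 : (g : G) • ((h0 : G) • K) = (g : G) • K := by
      rw [hg.2, ← hh.2]
      simp [mul_smul]
    exact smul_left_cancel _ h1
  have h1 : ((univ.filter (fun h : M => (h : G) • K = K')).image (fun h => h * h0)).card =
      (univ.filter (fun h : M => (h : G) • K = K')).card :=
    card_image_of_injective _ (mul_left_injective h0)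
  have h2 := card_le_card (subset_univ ((univ.filter (fun h : M => (h : G) • K = K')) ∪
    ((univ.filter (fun h : M => (h : G) • K = K')).image (fun h => h * h0))))
  rw [card_union_of_disjoint hd, h1, card_univ] at h2
  omega

open Classical in
/-- Covering the orbit of a covered coset. -/
theorem walk {A : Set G} {M : Subgroup G} [Fintype M] {τ : Equiv.Perm M}
    (hA : ∀ a ∈ A, ∀ g, g * a * g⁻¹ ∈ A) (hinv : ∀ a ∈ A, a⁻¹ ∈ A)
    (hτA : ∀ h : M, ((h : G))⁻¹ * (τ h : G) ∈ A)
    (hirr : ∀ S : Set M, S.Nonempty → (∀ x ∈ S, τ x ∈ S) → S = Set.univ)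
    (hL : 3 ≤ Fintype.card M)
    {U : Finset (G ⧸ M)} {n : G ⧸ M → ℕ} (h : St A M τ U n) (K : G ⧸ M) (hK : K ∈ U)
    (hn : Fintype.card M - 1 ≤ n K) (hd : ∀ g : M, (g : G) • K ∈ U → (g : G) • K = K) :
    ∃ n', St A M τ (U ∪ orb M K) n' ∧ (∀ L ∈ U, L ≠ K → n' L = n L) ∧
      ∀ L ∈ orb M K, 1 ≤ n' L := by
  by_cases hfix : ∀ g : M, (g : G) • K = K
  · have e : orb M K = {K} := by
      ext L
      rw [mem_orb, mem_singleton]
      constructor
      · rintro ⟨g, rfl⟩
        exact hfix g
      · rintro rfl
        exact ⟨1, by simp⟩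
    refine ⟨n, ?_, fun _ _ _ => rfl, ?_⟩
    · rw [e, union_eq_left.2 (singleton_subset_iff.2 hK)]
      exact h
    · intro L hL'
      rw [e, mem_singleton] at hL'
      rw [hL']
      omega
  · push Not at hfix
    obtain ⟨h0, hh0⟩ := hfix
    obtain ⟨zinj, zall⟩ := orbit_all (τ : M → M) τ.injective hirr (1 : M)
    obtain ⟨z, hz⟩ : ∃ z : ℕ → M, z = fun j => (τ : M → M)^[j] (1 : M) := ⟨_, rfl⟩
    have hz0 : z 0 = 1 := by rw [hz]; rfl
    have hzs : ∀ i, z (i + 1) = τ (z i) := by
      intro i
      rw [hz]
      exact Function.iterate_succ_apply' _ _ _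
    have hzinj : ∀ i j, i < Fintype.card M → j < Fintype.card M → z i = z j → i = j := by
      intro i j hi hj hij
      rw [hz] at hij
      exact zinj (Set.mem_Iio.2 hi) (Set.mem_Iio.2 hj) hij
    have hzall : ∀ b, ∃ j < Fintype.card M, z j = b := by
      intro b
      obtain ⟨j, hj, hb⟩ := zall b
      exact ⟨j, hj, by rw [hz]; exact hb⟩
    obtain ⟨W, hW⟩ : ∃ W : ℕ → G ⧸ M, ∀ i, W i = (z i : G) • K := ⟨_, fun _ => rfl⟩
    have hW0 : W 0 = K := by rw [hW, hz0]; simp
    -- the number of visits
    have hcnt : ∀ (i : ℕ) (K' : G ⧸ M), i ≤ Fintype.card M →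
        2 * ((range i).filter (fun j => W j = K')).card ≤ Fintype.card M := by
      intro i K' hi
      refine le_trans (Nat.mul_le_mul_left 2 ?_) (half_bound (K' := K') h0 hh0)
      refine card_le_card_of_injOn z ?_ ?_
      · intro j hj
        simp only [coe_filter, mem_range, Set.mem_ofPred_eq] at hj
        simp only [coe_filter, mem_univ, true_and, Set.mem_ofPred_eq]
        rw [← hj.2, hW]
      · intro j hj j' hj' hjj
        simp only [coe_filter, mem_range, Set.mem_ofPred_eq] at hj hj'
        exact hzinj j j' (lt_of_lt_of_le hj.1 hi) (lt_of_lt_of_le hj'.1 hi) hjj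
    have main : ∀ i, i < Fintype.card M → ∃ n', St A M τ (U ∪ (range (i + 1)).image W) n' ∧
        (∀ L ∈ U, L ≠ K → n' L = n L) ∧
        ∀ j ≤ i, Fintype.card M - 1 ≤ n' (W j) +
          ((range i).filter (fun j' => W j' = W j)).card := by
      intro i
      induction i with
      | zero =>
        intro _
        refine ⟨n, ?_, fun _ _ _ => rfl, ?_⟩
        · have : (range (0 + 1)).image W = {K} := by simp [hW0]
          rw [this, union_eq_left.2 (singleton_subset_iff.2 hK)]
          exact h
        · intro j hj
          have : j = 0 := by omega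
          rw [this, hW0]
          omega
      | succ i ih =>
        intro hi
        obtain ⟨n1, hS, hn1, hn2⟩ := ih (by omega)
        have hWU : ∀ j, W j ∈ U → W j = K := by
          intro j hj
          rw [hW] at hj ⊢
          exact hd _ hj
        have hUi : ∀ L, L ∈ U ∪ (range (i + 1)).image W ↔ L ∈ U ∨ ∃ j ≤ i, W j = L := by
          intro L
          rw [mem_union, mem_image]
          constructor
          · rintro (h | ⟨j, hj, rfl⟩)
            · exact Or.inl h
            · exact Or.inr ⟨j, by rw [mem_range] at hj; omega, rfl⟩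
          · rintro (h | ⟨j, hj, rfl⟩)
            · exact Or.inl h
            · exact Or.inr ⟨j, by rw [mem_range]; omega, rfl⟩
        have hUe : U ∪ (range (i + 1 + 1)).image W =
            insert (W (i + 1)) (U ∪ (range (i + 1)).image W) := by
          rw [range_add_one, image_insert, union_insert]
        have hmono : ∀ L, ((range i).filter (fun j' => W j' = L)).card ≤
            ((range (i + 1)).filter (fun j' => W j' = L)).card := by
          intro L
          apply card_le_card
          intro j hj
          rw [mem_filter, mem_range] at hj ⊢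
          exact ⟨by omega, hj.2⟩
        rw [hUe]
        by_cases hnew : W (i + 1) ∈ U ∪ (range (i + 1)).image W
        · rw [insert_eq_of_mem hnew]
          refine ⟨n1, hS, hn1, ?_⟩
          intro j hj
          by_cases hji : j = i + 1
          · subst hji
            rw [hUi] at hnew
            have hex : ∃ j ≤ i, W j = W (i + 1) := by
              rcases hnew with hnew | hnew
              · exact ⟨0, by omega, by rw [hWU _ hnew, hW0]⟩
              · exact hnew
            obtain ⟨j, hj, hjW⟩ := hex
            have := hn2 j hj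
            have := hmono (W j)
            rw [← hjW]
            omega
          · have := hn2 j (by omega)
            have := hmono (W j)
            omega
        · -- a new coset
          have hWi : W i ∈ U ∪ (range (i + 1)).image W := (hUi _).2 (Or.inr ⟨i, le_rfl, rfl⟩)
          have hlast : ((range (i + 1)).filter (fun j' => W j' = W i)).card =
              ((range i).filter (fun j' => W j' = W i)).card + 1 := by
            rw [range_add_one, filter_insert, if_pos rfl, card_insert_of_notMem]
            rw [mem_filter, mem_range]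
            omega
          have hb := hcnt (i + 1) (W i) (by omega)
          have hni := hn2 i le_rfl
          have hn1i : 1 ≤ n1 (W i) := by omega
          have hc : (z (i + 1) : G) * (z i : G)⁻¹ ∈ A := by
            have h1 := hA _ (hτA (z i)) (z i : G)
            rw [hzs]
            have e : (z i : G) * ((z i : G)⁻¹ * (τ (z i) : G)) * (z i : G)⁻¹ =
              (τ (z i) : G) * (z i : G)⁻¹ := by group
            rwa [e] at h1
          have hcW : ((z (i + 1) : G) * (z i : G)⁻¹) • W i = W (i + 1) := by
            rw [hW, hW, smul_smul, inv_mul_cancel_right]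
          have h2 := insert_St hA hinv hτA hirr hS (W i) hWi hn1i _ hc (by rw [hcW]; exact hnew)
          rw [hcW] at h2
          refine ⟨_, h2, ?_, ?_⟩
          · intro L hLU hLK
            have q1 : L ≠ W (i + 1) := by
              rintro rfl
              exact hnew (mem_union_left _ hLU)
            have q2 : L ≠ W i := by
              rintro rfl
              exact hLK (hWU _ hLU)
            rw [if_neg q1, if_neg q2]
            exact hn1 L hLU hLK
          · intro j hj
            by_cases hji : W j = W (i + 1)
            · rw [if_pos hji]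
              omega
            · rw [if_neg hji]
              have hj' : j ≤ i := by
                rcases Nat.lt_or_ge i j with h3 | h3
                · exact absurd (by rw [show j = i + 1 by omega]) hji
                · exact h3
              have q3 := hn2 j hj'
              by_cases hjw : W j = W i
              · rw [if_pos hjw, hjw, hlast]
                rw [hjw] at q3
                omega
              · rw [if_neg hjw]
                have := hmono (W j)
                omega
    obtain ⟨n', hS, hn1, hn2⟩ := main (Fintype.card M - 1) (by omega)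
    have himg : (range (Fintype.card M - 1 + 1)).image W = orb M K := by
      ext L
      rw [mem_image, mem_orb]
      constructor
      · rintro ⟨j, -, rfl⟩
        exact ⟨z j, (hW j).symm⟩
      · rintro ⟨g, rfl⟩
        obtain ⟨j, hj, rfl⟩ := hzall g
        exact ⟨j, by rw [mem_range]; omega, hW j⟩
    rw [himg] at hS
    refine ⟨n', hS, hn1, ?_⟩
    intro L hLo
    rw [← himg, mem_image] at hLo
    obtain ⟨j, hj, rfl⟩ := hLo
    rw [mem_range] at hj
    have q1 := hn2 j (by omega)
    have q2 := hcnt (Fintype.card M - 1) (W j) (by omega)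
    omega

open Classical in
/-- The orbits that are out-neighbours of `K`. -/
noncomputable def Out [Fintype G] (M : Subgroup G) [Fintype M] (d : G) (K : G ⧸ M) :
    Finset (Finset (G ⧸ M)) :=
  (univ.filter (fun x : G => (x : G ⧸ M) = K)).image (fun x => orb M ((x * d : G) : G ⧸ M))

theorem out_card [Fintype G] (M : Subgroup G) [Fintype M] (d : G) (K : G ⧸ M) :
    (Out M d K).card ≤ (orb M K).card := by
  classical
  obtain ⟨x0, rfl⟩ := QuotientGroup.mk_surjective K
  obtain ⟨m, hm⟩ : ∃ m, m = (univ.filter (fun t : M => (t : G) • (x0 : G ⧸ M) = (x0 : G ⧸ M))).card :=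
    ⟨_, rfl⟩
  have hmpos : 0 < m := by
    rw [hm]
    exact card_pos.2 ⟨1, by simp⟩
  have hF : (univ.filter (fun x : G => (x : G ⧸ M) = (x0 : G ⧸ M))).card ≤ Fintype.card M := by
    rw [← card_univ (α := M)]
    have hmem : ∀ x ∈ univ.filter (fun x : G => (x : G ⧸ M) = (x0 : G ⧸ M)), x0⁻¹ * x ∈ M := by
      intro x hx
      rw [mem_filter] at hx
      exact QuotientGroup.eq.1 hx.2.symm
    refine card_le_card_of_injOn (fun x => if h : x0⁻¹ * x ∈ M then (⟨x0⁻¹ * x, h⟩ : M) else 1)
      (fun x _ => mem_coe.2 (mem_univ _)) ?_
    intro x hx y hy hxy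
    simp only [dif_pos (hmem x hx), dif_pos (hmem y hy)] at hxy
    exact mul_left_cancel (Subtype.mk.inj hxy)
  have h1 : m * (Out M d (x0 : G ⧸ M)).card ≤
      (univ.filter (fun x : G => (x : G ⧸ M) = (x0 : G ⧸ M))).card := by
    apply mul_card_image_le_card
    intro O hO
    rw [mem_image] at hO
    obtain ⟨x1, hx1, rfl⟩ := hO
    rw [mem_filter] at hx1
    rw [hm]
    refine card_le_card_of_injOn (fun t : M => (t : G) * x1) ?_ ?_
    · intro t ht
      simp only [coe_filter, mem_univ, true_and, Set.mem_ofPred_eq] at ht
      simp only [coe_filter, mem_filter, mem_univ, true_and, Set.mem_ofPred_eq]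
      constructor
      · have : (((t : G) * x1 : G) : G ⧸ M) = (t : G) • (x1 : G ⧸ M) := rfl
        rw [this, hx1.2, ht]
      · have : (((t : G) * x1 * d : G) : G ⧸ M) = (t : G) • ((x1 * d : G) : G ⧸ M) := by
          rw [mul_assoc]
          rfl
        rw [this]
        exact orb_eq (mem_orb.2 ⟨t, rfl⟩)
    · intro t _ t' _ htt
      exact Subtype.ext (mul_right_cancel htt)
  have h2 : Fintype.card M ≤ m * (orb M (x0 : G ⧸ M)).card := by
    rw [← card_univ (α := M)]
    apply card_le_mul_card_image
    intro L hL
    rw [mem_image] at hL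
    obtain ⟨g, -, rfl⟩ := hL
    rw [hm]
    refine card_le_card_of_injOn (fun t : M => g⁻¹ * t) ?_ ?_
    · intro t ht
      simp only [coe_filter, mem_univ, true_and, Set.mem_ofPred_eq] at ht
      simp only [coe_filter, mem_univ, true_and, Set.mem_ofPred_eq]
      rw [Subgroup.coe_mul, mul_smul, ht, ← mul_smul]
      simp
    · intro t _ t' _ htt
      exact mul_left_cancel htt
  have h3 : m * (Out M d (x0 : G ⧸ M)).card ≤ m * (orb M (x0 : G ⧸ M)).card :=
    (h1.trans hF).trans h2
  exact Nat.le_of_mul_le_mul_left h3 hmpos

open Classical in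
/-- Covering all cosets. -/
theorem grow [Fintype G] {A : Set G} {M : Subgroup G} [Fintype M] {τ : Equiv.Perm M}
    (hA : ∀ a ∈ A, ∀ g, g * a * g⁻¹ ∈ A) (hinv : ∀ a ∈ A, a⁻¹ ∈ A)
    (hτA : ∀ h : M, ((h : G))⁻¹ * (τ h : G) ∈ A)
    (hirr : ∀ S : Set M, S.Nonempty → (∀ x ∈ S, τ x ∈ S) → S = Set.univ)
    (hL : 3 ≤ Fintype.card M) (d : G) (hd : d ∈ A)
    (hgen : ∀ S : Set G, 1 ∈ S → (∀ x ∈ S, ∀ h ∈ M, x * h ∈ S) → (∀ x ∈ S, x * d ∈ S) →
      S = Set.univ) :
    ∀ (N : ℕ) (U E : Finset (G ⧸ M)) (n : G ⧸ M → ℕ), (univ \ U).card = N →
      ((1 : G) : G ⧸ M) ∈ U → (∀ h : M, ∀ K ∈ U, (h : G) • K ∈ U) → E ⊆ U →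
      St A M τ U n → (∀ K ∈ U, K ∉ E → 1 ≤ n K) →
      (∀ K ∈ U, (E ∩ orb M K).card ≤ ((Out M d K).filter (fun O => O ⊆ U)).card) →
      ∃ n', St A M τ univ n' := by
  intro N
  induction N using Nat.strong_induction_on with
  | _ N ih =>
    intro U E n hN h1U hinvU hEU hSt hn hcnt
    by_cases hU : U = univ
    · rw [hU] at hSt
      exact ⟨n, hSt⟩
    · have hex : ∃ x : G, (x : G ⧸ M) ∈ U ∧ ((x * d : G) : G ⧸ M) ∉ U := by
        by_contra hcon
        push Not at hcon
        apply hU
        have hS := hgen {x : G | (x : G ⧸ M) ∈ U} h1U (by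
          intro x hx h hh
          show ((x * h : G) : G ⧸ M) ∈ U
          rw [QuotientGroup.mk_mul_of_mem x hh]
          exact hx) (fun x hx => hcon x hx)
        rw [eq_univ_iff_forall]
        intro K
        obtain ⟨x, rfl⟩ := QuotientGroup.mk_surjective K
        have : x ∈ {x : G | (x : G ⧸ M) ∈ U} := by rw [hS]; trivial
        exact this
      obtain ⟨x, hxU, hxd⟩ := hex
      have hinvU' : ∀ h : M, ∀ K, (h : G) • K ∈ U → K ∈ U := by
        intro h K hh
        have := hinvU h⁻¹ _ hh
        simpa using this
      -- choose the attaching coset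
      have hlt : (E ∩ orb M (x : G ⧸ M)).card < (orb M (x : G ⧸ M)).card := by
        refine lt_of_le_of_lt (hcnt _ hxU) (lt_of_lt_of_le ?_ (out_card M d (x : G ⧸ M)))
        apply card_lt_card
        rw [ssubset_iff_of_subset (filter_subset _ _)]
        refine ⟨orb M ((x * d : G) : G ⧸ M), ?_, ?_⟩
        · exact mem_image.2 ⟨x, by simp, rfl⟩
        · rw [mem_filter, not_and]
          intro _ hsub
          exact hxd (hsub (self_mem_orb _))
      obtain ⟨K1, hK1o, hK1E⟩ : ∃ K1 ∈ orb M (x : G ⧸ M), K1 ∉ E := by
        by_contra hcon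
        push Not at hcon
        have : E ∩ orb M (x : G ⧸ M) = orb M (x : G ⧸ M) := by
          rw [inter_eq_right]
          exact hcon
        rw [this] at hlt
        exact lt_irrefl _ hlt
      obtain ⟨h, hh⟩ := mem_orb.1 hK1o
      have hK1 : K1 = (((h : G) * x : G) : G ⧸ M) := hh.symm
      have hK1U : K1 ∈ U := by
        rw [← hh]
        exact hinvU h _ hxU
      have hc : ((h : G) * x) * d * ((h : G) * x)⁻¹ ∈ A := hA d hd _
      have hcK : (((h : G) * x) * d * ((h : G) * x)⁻¹) • K1 = (((h : G) * x * d : G) : G ⧸ M) := by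
        rw [hK1]
        show ((((h : G) * x) * d * ((h : G) * x)⁻¹ * ((h : G) * x) : G) : G ⧸ M) = _
        rw [inv_mul_cancel_right]
      have hcK' : (((h : G) * x * d : G) : G ⧸ M) = (h : G) • ((x * d : G) : G ⧸ M) := by
        rw [mul_assoc]
        rfl
      have hnew : (((h : G) * x * d : G) : G ⧸ M) ∉ U := by
        rw [hcK']
        exact fun hh => hxd (hinvU' h _ hh)
      have hSt1 := insert_St hA hinv hτA hirr hSt K1 hK1U (hn K1 hK1U hK1E) _ hc
        (by rw [hcK]; exact hnew)
      rw [hcK] at hSt1
      obtain ⟨K2, hK2⟩ : ∃ K2, K2 = (((h : G) * x * d : G) : G ⧸ M) := ⟨_, rfl⟩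
      rw [← hK2] at hSt1 hnew
      have hK2no : ∀ g : M, (g : G) • K2 ∉ U := fun g hg => hnew (hinvU' g _ hg)
      obtain ⟨n2, hSt2, hn2a, hn2b⟩ := walk hA hinv hτA hirr hL hSt1 K2 (mem_insert_self _ _)
        (by rw [if_pos rfl]) (by
          intro g hg
          rw [mem_insert] at hg
          exact hg.resolve_right (hK2no g))
      have hdis : ∀ L ∈ orb M K2, L ∉ U := by
        intro L hL' hLU
        obtain ⟨g, rfl⟩ := mem_orb.1 hL'
        exact hK2no g hLU
      have hU2 : ∀ L, L ∈ insert K2 U ∪ orb M K2 ↔ L ∈ U ∨ L ∈ orb M K2 := by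
        intro L
        rw [mem_union, mem_insert]
        constructor
        · rintro ((h | h) | h)
          · right; rw [h]; exact self_mem_orb _
          · exact Or.inl h
          · exact Or.inr h
        · rintro (h | h)
          · exact Or.inl (Or.inr h)
          · exact Or.inr h
      refine ih _ ?_ (insert K2 U ∪ orb M K2) (insert K1 E) n2 rfl ?_ ?_ ?_ hSt2 ?_ ?_
      · rw [← hN]
        apply card_lt_card
        rw [ssubset_iff_of_subset (by
          intro L hL'
          rw [mem_sdiff, hU2] at hL'
          rw [mem_sdiff]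
          exact ⟨mem_univ _, fun hh => hL'.2 (Or.inl hh)⟩)]
        refine ⟨K2, mem_sdiff.2 ⟨mem_univ _, hnew⟩, ?_⟩
        rw [mem_sdiff, hU2]
        exact fun hh => hh.2 (Or.inr (self_mem_orb _))
      · rw [hU2]
        exact Or.inl h1U
      · intro g L hL'
        rw [hU2] at hL' ⊢
        rcases hL' with hL' | hL'
        · exact Or.inl (hinvU g L hL')
        · exact Or.inr (orb_trans hL' (mem_orb.2 ⟨g, rfl⟩))
      · intro L hL'
        rw [hU2]
        rw [mem_insert] at hL'
        rcases hL' with rfl | hL'
        · exact Or.inl hK1U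
        · exact Or.inl (hEU hL')
      · intro L hL' hLE
        rw [mem_insert, not_or] at hLE
        by_cases hLo : L ∈ orb M K2
        · exact hn2b L hLo
        · have hLU : L ∈ U := by
            rw [hU2] at hL'
            exact hL'.resolve_right hLo
          have hLK2 : L ≠ K2 := by
            rintro rfl
            exact hnew hLU
          rw [hn2a L (mem_insert_of_mem hLU) hLK2, if_neg hLK2, if_neg hLE.1]
          exact hn L hLU hLE.2
      · intro L hL'
        rw [hU2] at hL'
        rcases hL' with hLU | hLo
        · by_cases hK1L : K1 ∈ orb M L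
          · -- one more attached orbit
            have q1 : (insert K1 E ∩ orb M L).card ≤ (E ∩ orb M L).card + 1 := by
              rw [insert_inter_of_mem hK1L]
              exact card_insert_le _ _
            have q2 : (((Out M d L).filter (fun O => O ⊆ U)).card) + 1 ≤
                ((Out M d L).filter (fun O => O ⊆ insert K2 U ∪ orb M K2)).card := by
              rw [← Nat.succ_eq_add_one, Nat.succ_le_iff]
              apply card_lt_card
              rw [ssubset_iff_of_subset]
              · refine ⟨orb M K2, ?_, ?_⟩
                · rw [mem_filter]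
                  constructor
                  · obtain ⟨g, hg⟩ := mem_orb.1 (orb_symm hK1L)
                    rw [Out, mem_image]
                    refine ⟨(g : G) * ((h : G) * x), ?_, ?_⟩
                    · rw [mem_filter]
                      refine ⟨mem_univ _, ?_⟩
                      rw [← hg, hK1]
                      rfl
                    · apply orb_eq
                      rw [mem_orb]
                      refine ⟨g, ?_⟩
                      rw [hK2, mul_assoc (g : G)]
                      rfl
                  · exact subset_union_right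
                · rw [mem_filter, not_and]
                  intro _ hsub
                  exact hnew (hsub (self_mem_orb _))
              · intro O hO
                rw [mem_filter] at hO ⊢
                refine ⟨hO.1, hO.2.trans ?_⟩
                intro L' hL'
                rw [hU2]
                exact Or.inl hL'
            have := hcnt L hLU
            omega
          · rw [insert_inter_of_notMem hK1L]
            refine (hcnt L hLU).trans (card_le_card ?_)
            intro O hO
            rw [mem_filter] at hO ⊢
            refine ⟨hO.1, hO.2.trans ?_⟩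
            intro L' hL'
            rw [hU2]
            exact Or.inl hL'
        · have : insert K1 E ∩ orb M L = ∅ := by
            rw [eq_empty_iff_forall_notMem]
            intro L' hL'
            rw [mem_inter, mem_insert] at hL'
            refine hdis L' (orb_trans hLo hL'.2) ?_
            rcases hL'.1 with rfl | hh
            · exact hK1U
            · exact hEU hh
          rw [this]
          simp

end Pool.Agent.H65T.NC
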