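import Mathlib
import Pool.Agent.H65T.NC.Grow

set_option autoImplicit false

/-!
# Hamiltonian cycles for conjugation-closed generating sets: the theorem
-/

namespace Pool.Agent.H65T.NC

open Finset

universe u

/-- From an injective function without proper closed subsets to a Hamiltonian cycle. -/
theorem hc_of_fun {G : Type u} [Group G] [Finite G] {A : Set G} (σ : G → G)
    (h1 : ∀ x, x⁻¹ * σ x ∈ A) (h2 : Function.Injective σ)
    (h3 : ∀ S : Set G, S.Nonempty → (∀ x ∈ S, σ x ∈ S) → S = Set.univ) : HC G A :=
  ⟨Equiv.ofBijective σ (Finite.injective_iff_bijective.1 h2), h1, h3⟩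

/-- Powers of one element. -/
theorem hc_cyclic {G : Type u} [Group G] [Finite G] {A : Set G} (a : G) (ha : a ∈ A)
    (hgen : Subgroup.zpowers a = ⊤) : HC G A := by
  refine hc_of_fun (fun x => x * a) (fun x => by simpa using ha) (mul_left_injective a) ?_
  rintro S ⟨x, hx⟩ hS
  rw [Set.eq_univ_iff_forall]
  intro y
  have h1 : x⁻¹ * y ∈ Subgroup.zpowers a := by rw [hgen]; trivial
  rw [← mem_powers_iff_mem_zpowers] at h1
  obtain ⟨n, hn⟩ := h1
  have h2 : ∀ n : ℕ, x * a ^ n ∈ S := by
    intro n
    induction n with
    | zero => simpa using hx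
    | succ n ih =>
      rw [pow_succ, ← mul_assoc]
      exact hS _ ih
  have h3 := h2 n
  simp only at hn
  rwa [hn, mul_inv_cancel_left] at h3

/-- Two involutions. -/
theorem hc_dihedral {G : Type u} [Group G] [Finite G] {A : Set G} (a b : G) (ha : a ∈ A)
    (hb : b ∈ A) (ha2 : a * a = 1) (hb2 : b * b = 1) (ha1 : a ≠ 1) (hb1 : b ≠ 1) (hab : a ≠ b)
    (hgen : Subgroup.closure {a, b} = ⊤) : HC G A := by
  classical
  have hai : a⁻¹ = a := inv_eq_of_mul_eq_one_right ha2
  have hbi : b⁻¹ = b := inv_eq_of_mul_eq_one_right hb2
  obtain ⟨R, hR⟩ : ∃ R, R = Subgroup.zpowers (a * b) := ⟨_, rfl⟩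
  have hrR : a * b ∈ R := by rw [hR]; exact Subgroup.mem_zpowers _
  have haR : a ∉ R := by
    intro haR
    have hbR : b ∈ R := by
      have h := R.mul_mem haR hrR
      rwa [← mul_assoc, ha2, one_mul] at h
    have htop : R = ⊤ := by
      rw [eq_top_iff, ← hgen, Subgroup.closure_le]
      intro x hx
      rcases hx with rfl | hx
      · exact haR
      · rw [Set.mem_singleton_iff.1 hx]
        exact hbR
    have hcomm : a * b = b * a := by
      rw [hR] at haR hbR
      obtain ⟨i, hi⟩ := Subgroup.mem_zpowers_iff.1 haR
      obtain ⟨j, hj⟩ := Subgroup.mem_zpowers_iff.1 hbR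
      calc a * b = (a * b) ^ i * (a * b) ^ j := by rw [hi, hj]
        _ = (a * b) ^ j * (a * b) ^ i := by rw [← zpow_add, ← zpow_add, add_comm]
        _ = b * a := by rw [hi, hj]
    have hsq : (a * b) ^ 2 = 1 := by
      rw [pow_two]
      calc a * b * (a * b) = a * (b * a) * b := by group
        _ = a * (a * b) * b := by rw [hcomm]
        _ = (a * a) * (b * b) := by group
        _ = 1 := by rw [ha2, hb2, one_mul]
    have hc : Nat.card G ≤ 2 := by
      have h1 : Nat.card R = orderOf (a * b) := by rw [hR, Nat.card_zpowers]
      have h2 : Nat.card R = Nat.card G := by rw [htop]; exact Nat.card_congr Subgroup.topEquiv.toEquiv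
      rw [← h2, h1]
      exact Nat.le_of_dvd (by norm_num) (orderOf_dvd_of_pow_eq_one hsq)
    have hc3 : 3 ≤ Nat.card G := by
      haveI := Fintype.ofFinite G
      rw [Nat.card_eq_fintype_card]
      have h3 : ({1, a, b} : Finset G).card = 3 := by
        rw [card_insert_of_notMem, card_insert_of_notMem, card_singleton]
        · rw [mem_singleton]; exact hab
        · rw [mem_insert, mem_singleton, not_or]
          exact ⟨Ne.symm ha1, Ne.symm hb1⟩
      rw [← h3]
      exact card_le_univ _
    omega
  have hall : ∀ x : G, x ∈ R ∨ x * a ∈ R := by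
    intro x
    have hx : x ∈ Subgroup.closure {a, b} := by rw [hgen]; trivial
    have hba : b * a ∈ R := by
      have h := R.inv_mem hrR
      rwa [mul_inv_rev, hai, hbi] at h
    have step : ∀ x : G, ∀ y ∈ ({a, b} : Set G), (x ∈ R ∨ x * a ∈ R) → (x * y ∈ R ∨ x * y * a ∈ R) := by
      rintro x y (rfl | hy) hx
      · rcases hx with hx | hx
        · right
          rwa [mul_assoc, ha2, mul_one]
        · left
          exact hx
      · rw [Set.mem_singleton_iff.1 hy]
        rcases hx with hx | hx
        · right
          rw [mul_assoc]
          exact R.mul_mem hx hba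
        · left
          have h := R.mul_mem hx hrR
          have e : x * a * (a * b) = x * b := by
            calc x * a * (a * b) = x * (a * a) * b := by group
              _ = x * b := by rw [ha2, mul_one]
          rwa [e] at h
    induction hx using Subgroup.closure_induction_right with
    | one => exact Or.inl R.one_mem
    | mul_right x hx y hy ih => exact step x y hy ih
    | mul_inv_cancel x hx y hy ih =>
      have hyi : y⁻¹ = y := by
        rcases hy with rfl | hy
        · exact hai
        · rw [Set.mem_singleton_iff.1 hy]; exact hbi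
      rw [hyi]
      exact step x y hy ih
  refine hc_of_fun (fun x => if x ∈ R then x * a else x * b) ?_ ?_ ?_
  · intro x
    by_cases hx : x ∈ R
    · simpa [hx] using ha
    · simpa [hx] using hb
  · intro x y hxy
    have key : ∀ x y : G, x ∈ R → y ∉ R → x * a ≠ y * b := by
      intro x y hx hy h
      apply hy
      have e : y = x * (a * b) := by
        rw [← mul_assoc, h, mul_assoc, hb2, mul_one]
      rw [e]
      exact R.mul_mem hx hrR
    by_cases hx : x ∈ R
    · by_cases hy : y ∈ R
      · simp only [if_pos hx, if_pos hy] at hxy
        exact mul_right_cancel hxy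
      · simp only [if_pos hx, if_neg hy] at hxy
        exact absurd hxy (key x y hx hy)
    · by_cases hy : y ∈ R
      · simp only [if_neg hx, if_pos hy] at hxy
        exact absurd hxy.symm (key y x hy hx)
      · simp only [if_neg hx, if_neg hy] at hxy
        exact mul_right_cancel hxy
  · rintro S ⟨x0, hx0⟩ hS
    have cR : ∀ x ∈ S, x ∈ R → x * a ∈ S := by
      intro x hx hxR
      have := hS x hx
      simpa [hxR] using this
    have cN : ∀ x ∈ S, x ∉ R → x * b ∈ S := by
      intro x hx hxR
      have := hS x hx
      simpa [hxR] using this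
    have hnR : ∀ x ∈ R, x * a ∉ R := by
      intro x hx h
      apply haR
      have := R.mul_mem (R.inv_mem hx) h
      rwa [inv_mul_cancel_left] at this
    have hex : ∃ x ∈ S, x ∈ R := by
      by_cases h : x0 ∈ R
      · exact ⟨x0, hx0, h⟩
      · refine ⟨x0 * b, cN x0 hx0 h, ?_⟩
        have h1 := (hall x0).resolve_left h
        have h2 := R.mul_mem h1 hrR
        have e : x0 * a * (a * b) = x0 * b := by
          calc x0 * a * (a * b) = x0 * (a * a) * b := by group
            _ = x0 * b := by rw [ha2, mul_one]
        rwa [e] at h2
    obtain ⟨x, hxS, hxR⟩ := hex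
    have hpow : ∀ n : ℕ, x * (a * b) ^ n ∈ S ∧ x * (a * b) ^ n ∈ R := by
      intro n
      refine ⟨?_, R.mul_mem hxR (R.pow_mem hrR n)⟩
      induction n with
      | zero => simpa using hxS
      | succ n ih =>
        have hR' : x * (a * b) ^ n ∈ R := R.mul_mem hxR (R.pow_mem hrR n)
        have h1 := cR _ ih hR'
        have h2 := cN _ h1 (hnR _ hR')
        rwa [pow_succ, ← mul_assoc, ← mul_assoc]
    have hRS : ∀ y ∈ R, y ∈ S := by
      intro y hy
      have h1 : x⁻¹ * y ∈ Subgroup.zpowers (a * b) := by
        rw [← hR]
        exact R.mul_mem (R.inv_mem hxR) hy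
      rw [← mem_powers_iff_mem_zpowers] at h1
      obtain ⟨n, hn⟩ := h1
      have h2 := (hpow n).1
      simp only at hn
      rwa [hn, mul_inv_cancel_left] at h2
    rw [Set.eq_univ_iff_forall]
    intro y
    rcases hall y with hy | hy
    · exact hRS y hy
    · have h1 := cR _ (hRS _ hy) hy
      rwa [mul_assoc, ha2, mul_one] at h1

theorem closure_sub {G : Type u} [Group G] (A : Set G) (M : Subgroup G)
    (hM : Subgroup.closure (A ∩ M) = M) :
    Subgroup.closure {h : M | (h : G) ∈ A} = ⊤ := by
  apply Subgroup.map_injective M.subtype_injective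
  rw [MonoidHom.map_closure]
  have e : (M.subtype '' {h : M | (h : G) ∈ A}) = A ∩ M := by
    ext x
    constructor
    · rintro ⟨h, hh, rfl⟩
      exact ⟨hh, h.2⟩
    · rintro ⟨h1, h2⟩
      exact ⟨⟨x, h2⟩, h1, rfl⟩
  rw [e, hM, ← MonoidHom.range_eq_map, Subgroup.range_subtype]

open Classical in
/-- Every conjugation-closed symmetric generating set gives a Hamiltonian cycle. -/
theorem hc_main : ∀ (N : ℕ) (G : Type u) [Group G] [Fintype G] (A : Set G),
    Fintype.card G = N → 2 ≤ N → (∀ a ∈ A, ∀ g, g * a * g⁻¹ ∈ A) → (∀ a ∈ A, a⁻¹ ∈ A) →
    Subgroup.closure A = ⊤ → HC G A := by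
  intro N
  induction N using Nat.strong_induction_on with
  | _ N ih =>
    intro G _ _ A hN h2N hA hinv hgen
    -- a maximal proper subgroup generated by elements of `A`
    obtain ⟨M, hM, hmax⟩ := Set.exists_max_image
      {M : Subgroup G | M ≠ ⊤ ∧ Subgroup.closure (A ∩ M) = M} (fun M => Nat.card M)
      (Set.toFinite _) ⟨⊥, by
        constructor
        · intro h
          have : Nat.card (⊥ : Subgroup G) = Nat.card G := by
            rw [h]
            exact Nat.card_congr Subgroup.topEquiv.toEquiv
          rw [Subgroup.card_bot, Nat.card_eq_fintype_card] at this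
          omega
        · rw [eq_bot_iff, Subgroup.closure_le]
          exact Set.inter_subset_right⟩
    obtain ⟨hMtop, hMgen⟩ := hM
    -- subgroups generated by elements of `A` are small or everything
    have hbig : ∀ T : Set G, T ⊆ A → Nat.card M < Nat.card (Subgroup.closure T) →
        Subgroup.closure T = ⊤ := by
      intro T hT hc
      by_contra hne
      have := hmax (Subgroup.closure T) ⟨hne, by
        apply le_antisymm
        · rw [Subgroup.closure_le]
          exact Set.inter_subset_right
        · apply Subgroup.closure_mono
          exact fun x hx => ⟨hT hx, Subgroup.subset_closure hx⟩⟩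
      omega
    by_cases hM3 : 3 ≤ Fintype.card M
    · -- the main case
      have hlt : Fintype.card M < N := by
        rw [← hN, ← Nat.card_eq_fintype_card, ← Nat.card_eq_fintype_card]
        refine lt_of_le_of_ne (Subgroup.card_le_card_group M) ?_
        intro h
        exact hMtop (Subgroup.eq_top_of_card_eq M h)
      obtain ⟨τ, hτ1, hτ2⟩ := ih (Fintype.card M) hlt M {h : M | (h : G) ∈ A} rfl (by omega)
        (fun a ha g => hA a ha g) (fun a ha => hinv a ha) (closure_sub A M hMgen)
      obtain ⟨d, hd, hdM⟩ : ∃ d ∈ A, d ∉ M := by
        by_contra hcon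
        push Not at hcon
        apply hMtop
        rw [eq_top_iff, ← hgen, Subgroup.closure_le]
        exact hcon
      have htop : Subgroup.closure ((A ∩ M) ∪ {d}) = ⊤ := by
        apply hbig
        · rintro x (hx | hx)
          · exact hx.1
          · rw [Set.mem_singleton_iff.1 hx]
            exact hd
        · have hle : M ≤ Subgroup.closure ((A ∩ M) ∪ {d}) := by
            conv_lhs => rw [← hMgen]
            exact Subgroup.closure_mono Set.subset_union_left
          have hdin : d ∈ Subgroup.closure ((A ∩ M) ∪ {d}) :=
            Subgroup.subset_closure (Or.inr rfl)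
          have hlt' : M < Subgroup.closure ((A ∩ M) ∪ {d}) :=
            lt_of_le_of_ne hle (fun h => hdM (h ▸ hdin))
          rw [Nat.card_eq_fintype_card, Nat.card_eq_fintype_card]
          exact Set.card_lt_card hlt'
      have hg : ∀ S : Set G, 1 ∈ S → (∀ x ∈ S, ∀ h ∈ M, x * h ∈ S) → (∀ x ∈ S, x * d ∈ S) →
          S = Set.univ := by
        intro S h1 hSM hSd
        rw [Set.eq_univ_iff_forall]
        intro x
        have hx : x ∈ Subgroup.closure ((A ∩ M) ∪ {d}) := by rw [htop]; trivial
        have hpow : ∀ (n : ℕ), ∀ x ∈ S, x * d ^ n ∈ S := by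
          intro n
          induction n with
          | zero => intro x hx; simpa using hx
          | succ n ihn =>
            intro x hx
            rw [pow_succ, ← mul_assoc]
            exact hSd _ (ihn x hx)
        obtain ⟨k, hk⟩ : ∃ k : ℕ, d ^ k = d⁻¹ := by
          have : d⁻¹ ∈ Subgroup.zpowers d := Subgroup.inv_mem _ (Subgroup.mem_zpowers d)
          rw [← mem_powers_iff_mem_zpowers] at this
          obtain ⟨k, hk⟩ := this
          exact ⟨k, hk⟩
        induction hx using Subgroup.closure_induction_right with
        | one => exact h1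
        | mul_right x hx y hy ih' =>
          rcases hy with hy | hy
          · exact hSM x ih' y hy.2
          · rw [Set.mem_singleton_iff.1 hy]
            exact hSd x ih'
        | mul_inv_cancel x hx y hy ih' =>
          rcases hy with hy | hy
          · exact hSM x ih' _ (M.inv_mem hy.2)
          · rw [Set.mem_singleton_iff.1 hy, ← hk]
            exact hpow k x ih'
      -- the initial state
      have hmk : ∀ x : G, (x : G ⧸ M) ∈ ({((1 : G) : G ⧸ M)} : Finset (G ⧸ M)) ↔ x ∈ M := by
        intro x
        rw [mem_singleton, eq_comm, QuotientGroup.eq]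
        simp
      have hSt : St A M τ {((1 : G) : G ⧸ M)} (fun _ => Fintype.card M) := by
        refine ⟨fun x => if h : x ∈ M then (τ ⟨x, h⟩ : G) else x, fun _ => 1, ?_, ?_, ?_, ?_, ?_⟩
        · intro K hK
          exact (mem_singleton.1 hK).symm
        · intro x hx
          rw [hmk] at hx
          simp only [dif_pos hx]
          rw [hmk]
          exact ⟨(τ ⟨x, hx⟩).2, hτ1 ⟨x, hx⟩⟩
        · intro x y hx hy hxy
          rw [hmk] at hx hy
          simp only [dif_pos hx, dif_pos hy] at hxy
          have := τ.injective (Subtype.ext hxy)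
          exact congrArg Subtype.val this
        · rintro S ⟨x, hx, hxM⟩ hS y hy
          rw [hmk] at hxM hy
          have h1 := hτ2 {h : M | (h : G) ∈ S} ⟨⟨x, hxM⟩, hx⟩ (by
            intro h hh
            have h2 := hS h hh ((hmk _).2 h.2)
            simp only [dif_pos h.2] at h2
            exact h2)
          have h2 : (⟨y, hy⟩ : M) ∈ {h : M | (h : G) ∈ S} := by rw [h1]; trivial
          exact h2
        · intro K _
          rw [filter_true_of_mem, card_univ]
          intro g _
          left
          simp
      obtain ⟨n', σ, fr, s1, s2, s3, s4, s5⟩ := grow hA hinv hτ1 hτ2 hM3 d hd hg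
        _ {((1 : G) : G ⧸ M)} ∅ (fun _ => Fintype.card M) rfl (mem_singleton_self _) (by
          intro h K hK
          rw [mem_singleton] at hK
          rw [hK]
          show (((h : G) * 1 : G) : G ⧸ M) ∈ _
          rw [hmk, mul_one]
          exact h.2) (empty_subset _) hSt (fun _ _ _ => by omega) (by
          intro K _
          rw [empty_inter]
          simp)
      refine hc_of_fun σ (fun x => (s2 x (mem_univ _)).2)
        (fun x y hxy => s3 x y (mem_univ _) (mem_univ _) hxy) ?_
      rintro S ⟨x, hx⟩ hS
      rw [Set.eq_univ_iff_forall]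
      intro y
      exact s4 S ⟨x, hx, mem_univ _⟩ (fun x hx _ => hS x hx) y (mem_univ _)
    · -- small subgroups
      have hMc : Nat.card M < 3 := by
        rw [Nat.card_eq_fintype_card]
        omega
      by_cases hcyc : ∃ a ∈ A, Subgroup.zpowers a = ⊤
      · obtain ⟨a, ha, hz⟩ := hcyc
        exact hc_cyclic a ha hz
      · push Not at hcyc
        have hinvol : ∀ a ∈ A, a * a = 1 := by
          intro a ha
          have h1 : Nat.card (Subgroup.zpowers a) < 3 := by
            by_contra hcon
            apply hcyc a ha
            rw [Subgroup.zpowers_eq_closure] at hcon ⊢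
            apply hbig _ (Set.singleton_subset_iff.2 ha)
            omega
          rw [Nat.card_zpowers] at h1
          have h2 : 0 < orderOf a := orderOf_pos a
          have h3 : orderOf a ∣ 2 := by
            interval_cases orderOf a <;> norm_num
          rw [← pow_two]
          exact orderOf_dvd_iff_pow_eq_one.1 h3
        obtain ⟨a, ha, ha1⟩ : ∃ a ∈ A, a ≠ 1 := by
          by_contra hcon
          push Not at hcon
          have h1 : (⊤ : Subgroup G) ≤ ⊥ := by
            rw [← hgen, Subgroup.closure_le]
            intro x hx
            exact hcon x hx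
          have h2 : (⊥ : Subgroup G) = ⊤ := le_antisymm bot_le h1
          have : Nat.card (⊥ : Subgroup G) = Nat.card G := by
            rw [h2]
            exact Nat.card_congr Subgroup.topEquiv.toEquiv
          rw [Subgroup.card_bot, Nat.card_eq_fintype_card] at this
          omega
        obtain ⟨b, hb, hbz⟩ : ∃ b ∈ A, b ∉ Subgroup.zpowers a := by
          by_contra hcon
          push Not at hcon
          apply hcyc a ha
          rw [eq_top_iff, ← hgen, Subgroup.closure_le]
          exact hcon
        have hb1 : b ≠ 1 := by
          rintro rfl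
          exact hbz (Subgroup.one_mem _)
        have hab : a ≠ b := by
          rintro rfl
          exact hbz (Subgroup.mem_zpowers _)
        refine hc_dihedral a b ha hb (hinvol a ha) (hinvol b hb) ha1 hb1 hab ?_
        apply hbig
        · rintro x (rfl | hx)
          · exact ha
          · rw [Set.mem_singleton_iff.1 hx]
            exact hb
        · refine lt_of_lt_of_le hMc ?_
          have h3 : ({1, a, b} : Finset G).card = 3 := by
            rw [card_insert_of_notMem, card_insert_of_notMem, card_singleton]
            · rw [mem_singleton]; exact hab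
            · rw [mem_insert, mem_singleton, not_or]
              exact ⟨Ne.symm ha1, Ne.symm hb1⟩
          have h4 : (((({1, a, b} : Finset G) : Set G))).ncard ≤
              ((Subgroup.closure {a, b} : Subgroup G) : Set G).ncard := by
            apply Set.ncard_le_ncard _ (Set.toFinite _)
            intro x hx
            rw [mem_coe, mem_insert, mem_insert, mem_singleton] at hx
            rcases hx with hx | hx | hx
            · rw [hx]
              exact Subgroup.one_mem _
            · rw [hx]
              exact Subgroup.subset_closure (Or.inl rfl)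
            · rw [hx]
              exact Subgroup.subset_closure (Or.inr rfl)
          rw [Set.ncard_coe_finset, h3] at h4
          exact h4.trans (le_of_eq (Nat.card_coe_set_eq _).symm)

end Pool.Agent.H65T.NC
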