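import Mathlib
import Pool.Agent.H65T.NC.Main

set_option autoImplicit false

/-!
# Hamiltonian paths and listing sequences
-/

namespace Pool.Agent.H65T.NC

open scoped commutatorElement

universe u

/-- A Hamiltonian path of the Cayley graph. -/
def HP (G : Type u) [Group G] (A : Set G) : Prop :=
  ∃ p : ℕ → G, Set.InjOn p (Set.Iio (Nat.card G)) ∧
    ∀ i, i + 1 < Nat.card G → (p i)⁻¹ * p (i + 1) ∈ A

theorem hp_of_hc {G : Type u} [Group G] [Finite G] {A : Set G} (h : HC G A) : HP G A := by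
  haveI := Fintype.ofFinite G
  obtain ⟨σ, h1, h2⟩ := h
  obtain ⟨h3, -⟩ := orbit_all (σ : G → G) σ.injective h2 (1 : G)
  refine ⟨fun j => (σ : G → G)^[j] 1, ?_, ?_⟩
  · rw [Nat.card_eq_fintype_card]
    exact h3
  · intro i _
    show ((σ : G → G)^[i] 1)⁻¹ * (σ : G → G)^[i + 1] 1 ∈ A
    rw [Function.iterate_succ_apply']
    exact h1 _

theorem hp_triv {G : Type u} [Group G] {A : Set G} (h : Nat.card G ≤ 1) : HP G A := by
  refine ⟨fun _ => 1, ?_, ?_⟩
  · intro i hi j hj _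
    rw [Set.mem_Iio] at hi hj
    omega
  · intro i hi
    omega

theorem hp_all {G : Type u} [Group G] [Finite G] {A : Set G}
    (hA : ∀ a ∈ A, ∀ g, g * a * g⁻¹ ∈ A) (hinv : ∀ a ∈ A, a⁻¹ ∈ A)
    (hgen : Subgroup.closure A = ⊤) : HP G A := by
  haveI := Fintype.ofFinite G
  by_cases h : Nat.card G ≤ 1
  · exact hp_triv h
  · refine hp_of_hc (hc_main _ G A rfl ?_ hA hinv hgen)
    rw [← Nat.card_eq_fintype_card]
    omega

theorem hp_extend {G : Type u} [Group G] [Finite G] {A : Set G} (N : Subgroup G) [N.Normal]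
    (h1 : HP N {h : N | (h : G) ∈ A}) (h2 : HP (G ⧸ N) ((fun g : G => (g : G ⧸ N)) '' A)) :
    HP G A := by
  obtain ⟨u, hu1, hu2⟩ := h1
  obtain ⟨v, hv1, hv2⟩ := h2
  obtain ⟨L, hL⟩ : ∃ L, L = Nat.card N := ⟨_, rfl⟩
  obtain ⟨q, hq⟩ : ∃ q, q = Nat.card (G ⧸ N) := ⟨_, rfl⟩
  rw [← hL] at hu1 hu2
  rw [← hq] at hv1 hv2
  have hLpos : 0 < L := by rw [hL]; exact Nat.card_pos
  have hcard : Nat.card G = q * L := by
    rw [hL, hq]
    exact Subgroup.card_eq_card_quotient_mul_card_subgroup N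
  have hex : ∀ i, ∃ a : G, i + 1 < q → a ∈ A ∧ (a : G ⧸ N) = (v i)⁻¹ * v (i + 1) := by
    intro i
    by_cases h : i + 1 < q
    · obtain ⟨a, ha, hav⟩ := hv2 i h
      exact ⟨a, fun _ => ⟨ha, hav⟩⟩
    · exact ⟨1, fun h' => absurd h' h⟩
  choose a ha using hex
  obtain ⟨P, hP0, hPs⟩ : ∃ P : ℕ → G, P 0 = 1 ∧
      ∀ i, P (i + 1) = P i * ((u 0)⁻¹ * u (L - 1) : N) * a i :=
    ⟨fun i => Nat.rec 1 (fun i x => x * ((u 0)⁻¹ * u (L - 1) : N) * a i) i, rfl, fun _ => rfl⟩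
  have hmkN : ∀ h : N, ((h : G) : G ⧸ N) = 1 := fun h => (QuotientGroup.eq_one_iff _).2 h.2
  have hmkP : ∀ i, i < q → (P i : G ⧸ N) = (v 0)⁻¹ * v i := by
    intro i
    induction i with
    | zero =>
      intro _
      rw [hP0, inv_mul_cancel]
      rfl
    | succ i ih =>
      intro hi
      rw [hPs, QuotientGroup.mk_mul, QuotientGroup.mk_mul, hmkN, ih (by omega), (ha i hi).2]
      group
  obtain ⟨p, hp⟩ : ∃ p : ℕ → G, ∀ i j, j < L → p (L * i + j) = P i * ((u 0)⁻¹ * u j : N) := by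
    refine ⟨fun k => P (k / L) * ((u 0)⁻¹ * u (k % L) : N), ?_⟩
    intro i j hj
    show P ((L * i + j) / L) * _ = _
    rw [Nat.mul_add_div hLpos, Nat.div_eq_of_lt hj, Nat.mul_add_mod, Nat.mod_eq_of_lt hj, add_zero]
  have hdec : ∀ k, k < q * L → ∃ i j, i < q ∧ j < L ∧ k = L * i + j := by
    intro k hk
    refine ⟨k / L, k % L, Nat.div_lt_of_lt_mul (by rwa [mul_comm]), Nat.mod_lt _ hLpos,
      (Nat.div_add_mod k L).symm⟩
  refine ⟨p, ?_, ?_⟩
  · rw [hcard]
    intro k hk k' hk' hkk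
    rw [Set.mem_Iio] at hk hk'
    obtain ⟨i, j, hi, hj, rfl⟩ := hdec k hk
    obtain ⟨i', j', hi', hj', rfl⟩ := hdec k' hk'
    rw [hp i j hj, hp i' j' hj'] at hkk
    have h3 : i = i' := by
      have h4 := congrArg (fun g : G => (g : G ⧸ N)) hkk
      simp only [QuotientGroup.mk_mul] at h4
      rw [hmkN, hmkN, mul_one, mul_one, hmkP i hi, hmkP i' hi'] at h4
      exact hv1 (Set.mem_Iio.2 hi) (Set.mem_Iio.2 hi') (mul_left_cancel h4)
    subst h3
    have h5 := Subtype.ext (mul_left_cancel hkk)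
    have h6 := mul_left_cancel h5
    rw [hu1 (Set.mem_Iio.2 hj) (Set.mem_Iio.2 hj') h6]
  · intro k hk
    rw [hcard] at hk
    obtain ⟨i, j, hi, hj, rfl⟩ := hdec k (by omega)
    by_cases hj1 : j + 1 < L
    · rw [hp i j hj, add_assoc, hp i (j + 1) hj1]
      have h3 := hu2 j hj1
      have e : (P i * (((u 0)⁻¹ * u j : N) : G))⁻¹ * (P i * (((u 0)⁻¹ * u (j + 1) : N) : G)) =
          (((u j)⁻¹ * u (j + 1) : N) : G) := by
        push_cast
        group
      rw [e]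
      exact h3
    · have hjL : j = L - 1 := by omega
      have hi1 : i + 1 < q := by
        by_contra hcon
        have : q ≤ i + 1 := by omega
        have h4 : q * L ≤ (i + 1) * L := Nat.mul_le_mul_right _ this
        have h5 : (i + 1) * L = L * i + L := by ring
        omega
      have e0 : L * i + j + 1 = L * (i + 1) + 0 := by
        rw [mul_add, mul_one]
        omega
      rw [hp i j hj, e0, hp (i + 1) 0 hLpos, hPs, hjL]
      have e : (P i * (((u 0)⁻¹ * u (L - 1) : N) : G))⁻¹ *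
          (P i * (((u 0)⁻¹ * u (L - 1) : N) : G) * a i * (((u 0)⁻¹ * u 0 : N) : G)) = a i := by
        rw [inv_mul_cancel]
        push_cast
        group
      rw [e]
      exact (ha i hi1).1

/-- From a Hamiltonian path to a listing sequence. -/
theorem listing {G : Type u} [Group G] {A : Set G} (hne : A.Nonempty) (h : HP G A) :
    ∃ a : Fin (Nat.card G) → G, (∀ i, a i ∈ A) ∧
      Function.Injective (fun k : Fin (Nat.card G) => Fin.partialProd a k.succ) := by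
  obtain ⟨b, hb⟩ := hne
  obtain ⟨p, hp1, hp2⟩ := h
  obtain ⟨n, hn⟩ : ∃ n, n = Nat.card G := ⟨_, rfl⟩
  rw [← hn] at hp1 hp2 ⊢
  obtain ⟨a, ha⟩ : ∃ a : Fin n → G, a = fun i : Fin n => if (i : ℕ) = 0 then b else
    (p ((i : ℕ) - 1))⁻¹ * p i := ⟨_, rfl⟩
  have key : ∀ (k : ℕ) (hk : k < n), Fin.partialProd a (Fin.succ ⟨k, hk⟩) = b * (p 0)⁻¹ * p k := by
    intro k
    induction k with
    | zero =>
      intro hk
      rw [Fin.partialProd_succ]
      have e : Fin.castSucc (⟨0, hk⟩ : Fin n) = 0 := rfl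
      rw [e, Fin.partialProd_zero, ha]
      simp
    | succ k ih =>
      intro hk
      rw [Fin.partialProd_succ]
      have e : Fin.castSucc (⟨k + 1, hk⟩ : Fin n) = Fin.succ ⟨k, by omega⟩ := rfl
      rw [e, ih (by omega), ha]
      simp
  refine ⟨a, ?_, ?_⟩
  · intro i
    rw [ha]
    by_cases hi : (i : ℕ) = 0
    · simp only [if_pos hi]
      exact hb
    · simp only [if_neg hi]
      have h1 := hp2 ((i : ℕ) - 1) (by have := i.2; omega)
      have e : (i : ℕ) - 1 + 1 = i := by omega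
      rwa [e] at h1
  · intro k k' hkk
    simp only at hkk
    rw [show k = ⟨(k : ℕ), k.2⟩ from rfl, show k' = ⟨(k' : ℕ), k'.2⟩ from rfl, key, key] at hkk
    exact Fin.ext (hp1 (Set.mem_Iio.2 k.2) (Set.mem_Iio.2 k'.2) (mul_left_cancel hkk))

/-- The listing theorem. -/
theorem listing_main {G : Type u} [Group G] [Finite G] (A : Set G) (hne : A.Nonempty)
    (hinv : ∀ a ∈ A, a⁻¹ ∈ A) (hgen : Subgroup.closure A = ⊤)
    (hcomm : commutator G ≤ Subgroup.closure {a ∈ A | ∀ g, g * a * g⁻¹ ∈ A}) :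
    ∃ a : Fin (Nat.card G) → G, (∀ i, a i ∈ A) ∧
      Function.Injective (fun k : Fin (Nat.card G) => Fin.partialProd a k.succ) := by
  apply listing hne
  obtain ⟨A0, hA0⟩ : ∃ A0, A0 = {a ∈ A | ∀ g, g * a * g⁻¹ ∈ A} := ⟨_, rfl⟩
  obtain ⟨N, hN⟩ : ∃ N, N = Subgroup.closure A0 := ⟨_, rfl⟩
  rw [← hA0, ← hN] at hcomm
  haveI hNn : N.Normal := by
    constructor
    intro n hn g
    have h1 : ⁅g, n⁆ ∈ N := hcomm (Subgroup.commutator_mem_commutator (Subgroup.mem_top _) (Subgroup.mem_top _))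
    have h2 := N.mul_mem h1 hn
    rwa [commutatorElement_def, inv_mul_cancel_right] at h2
  have c1 : ∀ a ∈ A0, ∀ g, g * a * g⁻¹ ∈ A0 := by
    intro a ha g
    rw [hA0] at ha ⊢
    refine ⟨ha.2 g, fun g' => ?_⟩
    have e : g' * (g * a * g⁻¹) * g'⁻¹ = (g' * g) * a * (g' * g)⁻¹ := by group
    rw [e]
    exact ha.2 _
  have c2 : ∀ a ∈ A0, a⁻¹ ∈ A0 := by
    intro a ha
    rw [hA0] at ha ⊢
    refine ⟨hinv a ha.1, fun g => ?_⟩
    have e : g * a⁻¹ * g⁻¹ = (g * a * g⁻¹)⁻¹ := by group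
    rw [e]
    exact hinv _ (ha.2 g)
  have hA0N : A0 ∩ N = A0 := by
    apply Set.inter_eq_left.2
    rw [hN]
    exact Subgroup.subset_closure
  -- the normal subgroup
  have h1 : HP N {h : N | (h : G) ∈ A0} := by
    refine hp_all ?_ ?_ ?_
    · intro a ha g
      exact c1 _ ha _
    · intro a ha
      exact c2 _ ha
    · apply closure_sub
      rw [hA0N, hN]
  have h1' : HP N {h : N | (h : G) ∈ A} := by
    obtain ⟨p, hp1, hp2⟩ := h1
    refine ⟨p, hp1, fun i hi => ?_⟩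
    have := hp2 i hi
    have hs : A0 ⊆ A := by
      rw [hA0]
      exact fun x hx => hx.1
    exact hs this
  -- the quotient
  have hcq : ∀ x y : G ⧸ N, x * y = y * x := by
    intro x y
    obtain ⟨x, rfl⟩ := QuotientGroup.mk_surjective x
    obtain ⟨y, rfl⟩ := QuotientGroup.mk_surjective y
    rw [← QuotientGroup.mk_mul, ← QuotientGroup.mk_mul, eq_comm, QuotientGroup.eq]
    have h2 : ⁅x⁻¹, y⁻¹⁆ ∈ N := hcomm (Subgroup.commutator_mem_commutator (Subgroup.mem_top _) (Subgroup.mem_top _))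
    rw [commutatorElement_def] at h2
    have e : (y * x)⁻¹ * (x * y) = x⁻¹ * y⁻¹ * x⁻¹⁻¹ * y⁻¹⁻¹ := by group
    rw [e]
    exact h2
  refine hp_extend N h1' (hp_all ?_ ?_ ?_)
  · intro a ha g
    rw [hcq g a, mul_inv_cancel_right]
    exact ha
  · rintro _ ⟨a, ha, rfl⟩
    exact ⟨a⁻¹, hinv a ha, rfl⟩
  · have h3 : Subgroup.closure (QuotientGroup.mk' N '' A) = ⊤ := by
      rw [← MonoidHom.map_closure, hgen]
      exact Subgroup.map_top_of_surjective _ (QuotientGroup.mk'_surjective N)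
    exact h3

end Pool.Agent.H65T.NC
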