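import Mathlib
import Pool.Agent.H65T.NC.Main

set_option autoImplicit false

/-!
# Lifting a Hamiltonian cycle from a subgroup that normalises generators
-/

namespace Pool.Agent.H65T.NC

open Finset

universe u

variable {G : Type u} [Group G]

open Classical in
/-- Inserting the coset `c • K` at the tail `x * p`. -/
theorem insert_core2 {A : Set G} {M : Subgroup G} [Fintype M] {τ θ : Equiv.Perm M}
    (hθ : (∀ g, θ g = τ g ∧ θ.symm g = τ.symm g) ∨ (∀ g, θ g = τ.symm g ∧ θ.symm g = τ g))
    (hθA : ∀ h : M, ((h : G))⁻¹ * (θ.symm h : G) ∈ A)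
    (hirr : ∀ S : Set M, S.Nonempty → (∀ x ∈ S, θ.symm x ∈ S) → S = Set.univ)
    {U : Finset (G ⧸ M)} {n : G ⧸ M → ℕ} (σ : G → G) (fr : G ⧸ M → G)
    (s1 : ∀ K ∈ U, (fr K : G ⧸ M) = K)
    (s2 : ∀ x : G, (x : G ⧸ M) ∈ U → (σ x : G ⧸ M) ∈ U ∧ x⁻¹ * σ x ∈ A)
    (s3 : ∀ x y : G, (x : G ⧸ M) ∈ U → (y : G ⧸ M) ∈ U → σ x = σ y → x = y)
    (s4 : ∀ S : Set G, (∃ x ∈ S, (x : G ⧸ M) ∈ U) → (∀ x ∈ S, (x : G ⧸ M) ∈ U → σ x ∈ S) →
      ∀ x : G, (x : G ⧸ M) ∈ U → x ∈ S)
    (s5 : ∀ K ∈ U, n K ≤ (univ.filter (fun g : M => σ (fr K * g) = fr K * τ g ∨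
      σ (fr K * g) = fr K * τ.symm g)).card)
    (K : G ⧸ M) (hK : K ∈ U) (c : G)
    (hc : ∀ h : M, (fr K * h)⁻¹ * c * (fr K * h) ∈ A ∧ (fr K * h)⁻¹ * c⁻¹ * (fr K * h) ∈ A) (p : M)
    (hp : σ (fr K * p) = fr K * θ p)
    (hK' : ((c * fr K : G) : G ⧸ M) ∉ U) :
    St A M τ (insert ((c * fr K : G) : G ⧸ M) U) (fun L =>
      if L = ((c * fr K : G) : G ⧸ M) then Fintype.card M - 1 else
        if L = K then n K - 1 else n L) := by
  obtain ⟨x, hx⟩ : ∃ x, x = fr K := ⟨_, rfl⟩
  rw [← hx] at hp hK' hc ⊢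
  have hxK : (x : G ⧸ M) = K := by rw [hx]; exact s1 K hK
  obtain ⟨K', hKe⟩ : ∃ K', K' = ((c * x : G) : G ⧸ M) := ⟨_, rfl⟩
  rw [← hKe] at hK' ⊢
  have hKK : K ≠ K' := fun h => hK' (h ▸ hK)
  -- the new successor function
  obtain ⟨σ', hσ'⟩ : ∃ σ' : G → G, σ' = fun y =>
      if h : (c * x)⁻¹ * y ∈ M then (if y = c * x * θ p then x * θ p else
        c * x * θ.symm ⟨(c * x)⁻¹ * y, h⟩) else (if y = x * p then c * x * p else σ y) := ⟨_, rfl⟩
  have hmk : ∀ y : G, (y : G ⧸ M) = K' ↔ (c * x)⁻¹ * y ∈ M := by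
    intro y
    rw [hKe, eq_comm, QuotientGroup.eq]
  have hnot : ∀ y : G, (y : G ⧸ M) ∈ U → ¬ (c * x)⁻¹ * y ∈ M := by
    intro y hy h
    rw [← hmk] at h
    rw [h] at hy
    exact hK' hy
  have e1 : ∀ h : M, h ≠ θ p → σ' (c * x * h) = c * x * θ.symm h := by
    intro h hne
    have hm : (c * x)⁻¹ * (c * x * (h : G)) = (h : G) := by group
    have hm' : (c * x)⁻¹ * (c * x * (h : G)) ∈ M := by rw [hm]; exact h.2
    have hne' : ¬ c * x * (h : G) = c * x * (θ p : G) := by
      intro hh
      exact hne (Subtype.ext (mul_left_cancel hh))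
    rw [hσ']
    simp only
    rw [dif_pos hm', if_neg hne']
    congr 4
  have e2 : σ' (c * x * θ p) = x * θ p := by
    have hm' : (c * x)⁻¹ * (c * x * (θ p : G)) ∈ M := by
      have hm : (c * x)⁻¹ * (c * x * (θ p : G)) = (θ p : G) := by group
      rw [hm]; exact (θ p).2
    rw [hσ']
    simp only
    rw [dif_pos hm']
    exact if_pos trivial
  have e3 : ∀ y : G, (y : G ⧸ M) ∈ U → y ≠ x * p → σ' y = σ y := by
    intro y hy hne
    rw [hσ']
    simp only
    rw [dif_neg (hnot y hy), if_neg hne]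
  have hxp : ((x * p : G) : G ⧸ M) = K := by rw [mk_mul_mem, hxK]
  have e4 : σ' (x * p) = c * x * p := by
    rw [hσ']
    simp only
    rw [dif_neg (hnot _ (by rw [hxp]; exact hK))]
    exact if_pos trivial
  have hrep : ∀ y : G, (y : G ⧸ M) = K' → ∃ h : M, y = c * x * h := by
    intro y hy
    rw [hmk] at hy
    exact ⟨⟨(c * x)⁻¹ * y, hy⟩, by simp [mul_assoc]⟩
  have hmkc : ∀ h : M, ((c * x * h : G) : G ⧸ M) = K' := by
    intro h
    rw [mk_mul_mem, hKe]
  have hmkx : ∀ h : M, ((x * h : G) : G ⧸ M) = K := by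
    intro h
    rw [mk_mul_mem, hxK]
  refine ⟨σ', fun L => if L = K' then c * x else fr L, ?_, ?_, ?_, ?_, ?_⟩
  · intro L hL
    show (((if L = K' then c * x else fr L) : G) : G ⧸ M) = L
    by_cases hLK : L = K'
    · rw [if_pos hLK, hLK, hKe]
    · rw [if_neg hLK]
      exact s1 L ((mem_insert.1 hL).resolve_left hLK)
  · intro y hy
    rw [mem_insert] at hy
    rcases hy with hy | hy
    · obtain ⟨h, rfl⟩ := hrep y hy
      by_cases hh : h = θ p
      · rw [hh, e2]
        refine ⟨mem_insert_of_mem (by rw [hmkx]; exact hK), ?_⟩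
        have : (c * x * (θ p : G))⁻¹ * (x * (θ p : G)) =
          (x * (θ p : G))⁻¹ * c⁻¹ * (x * (θ p : G)) := by group
        rw [this]
        exact (hc _).2
      · rw [e1 h hh]
        refine ⟨mem_insert.2 (Or.inl (hmkc _)), ?_⟩
        have : (c * x * (h : G))⁻¹ * (c * x * (θ.symm h : G)) = (h : G)⁻¹ * (θ.symm h : G) := by
          group
        rw [this]
        exact hθA h
    · by_cases hh : y = x * p
      · rw [hh, e4]
        refine ⟨mem_insert.2 (Or.inl (hmkc _)), ?_⟩
        have : (x * (p : G))⁻¹ * (c * x * (p : G)) =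
          (x * (p : G))⁻¹ * c * (x * (p : G)) := by group
        rw [this]
        exact (hc _).1
      · rw [e3 y hy hh]
        exact ⟨mem_insert_of_mem (s2 y hy).1, (s2 y hy).2⟩
  · -- injectivity
    have hpU : ((x * p : G) : G ⧸ M) ∈ U := by rw [hxp]; exact hK
    -- values of σ'
    have val : ∀ y : G, (y : G ⧸ M) ∈ insert K' U →
        (∃ h : M, h ≠ θ p ∧ y = c * x * h ∧ σ' y = c * x * θ.symm h) ∨
        (y = c * x * θ p ∧ σ' y = x * θ p) ∨ (y = x * p ∧ σ' y = c * x * p) ∨
        ((y : G ⧸ M) ∈ U ∧ y ≠ x * p ∧ σ' y = σ y) := by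
      intro y hy
      rw [mem_insert] at hy
      rcases hy with hy | hy
      · obtain ⟨h, rfl⟩ := hrep y hy
        by_cases hh : h = θ p
        · right; left
          rw [hh]
          exact ⟨rfl, e2⟩
        · left
          exact ⟨h, hh, rfl, e1 h hh⟩
      · by_cases hh : y = x * p
        · right; right; left
          rw [hh]
          exact ⟨rfl, e4⟩
        · right; right; right
          exact ⟨hy, hh, e3 y hy hh⟩
    -- the class of the value
    have noKU : ∀ (h : M) (w : G), (w : G ⧸ M) ∈ U → c * x * (h : G) ≠ w := by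
      intro h w hw hh
      apply hK'
      rw [← hmkc h, hh]
      exact hw
    intro y y' hy hy' hyy
    rcases val y hy with ⟨h, hh, r1, r2⟩ | ⟨r1, r2⟩ | ⟨r1, r2⟩ | ⟨q1, r1, r2⟩ <;>
      rcases val y' hy' with ⟨h', hh', r1', r2'⟩ | ⟨r1', r2'⟩ | ⟨r1', r2'⟩ | ⟨q1', r1', r2'⟩ <;>
      rw [r2, r2'] at hyy
    · have := Subtype.ext (mul_left_cancel hyy)
      have := θ.symm.injective this
      rw [r1, r1', this]
    · exact absurd hyy (noKU _ _ (by rw [hmkx]; exact hK))
    · have h1 : θ.symm h = p := Subtype.ext (mul_left_cancel hyy)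
      exact absurd (by rw [← h1, Equiv.apply_symm_apply]) hh
    · exact absurd hyy (noKU _ _ (s2 _ q1').1)
    · exact absurd hyy.symm (noKU _ _ (by rw [hmkx]; exact hK))
    · rw [r1, r1']
    · exact absurd hyy.symm (noKU _ _ (by rw [hmkx]; exact hK))
    · rw [← hp] at hyy
      exact absurd (s3 _ _ hpU q1' hyy).symm r1'
    · have h1 : θ.symm h' = p := (Subtype.ext (mul_left_cancel hyy)).symm
      exact absurd (by rw [← h1, Equiv.apply_symm_apply]) hh'
    · exact absurd hyy (noKU _ _ (by rw [hmkx]; exact hK))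
    · rw [r1, r1']
    · exact absurd hyy (noKU _ _ (s2 _ q1').1)
    · exact absurd hyy.symm (noKU _ _ (s2 _ q1).1)
    · rw [← hp] at hyy
      exact absurd (s3 _ _ q1 hpU hyy) r1
    · exact absurd hyy.symm (noKU _ _ (s2 _ q1).1)
    · exact s3 _ _ q1 q1' hyy
  · -- one cycle
    intro S hS hcl
    have cK : ∀ h : M, c * x * (h : G) ∈ S → h ≠ θ p → c * x * (θ.symm h : G) ∈ S := by
      intro h hh hne
      have := hcl _ hh (mem_insert.2 (Or.inl (hmkc h)))
      rwa [e1 h hne] at this
    have step1 : (∃ h : M, c * x * (h : G) ∈ S) → x * (θ p : G) ∈ S := by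
      rintro ⟨h0, hh0⟩
      have h1 : c * x * (θ p : G) ∈ S := by
        by_contra hcon
        have := hirr {h : M | c * x * (h : G) ∈ S} ⟨h0, hh0⟩ (by
          intro h hh
          refine cK h hh ?_
          intro he
          apply hcon
          rw [← he]
          exact hh)
        apply hcon
        have h2 : θ p ∈ {h : M | c * x * (h : G) ∈ S} := by rw [this]; trivial
        exact h2
      have := hcl _ h1 (mem_insert.2 (Or.inl (hmkc _)))
      rwa [e2] at this
    have hUS : ∃ y ∈ S, (y : G ⧸ M) ∈ U := by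
      obtain ⟨y, hy, hyU⟩ := hS
      rw [mem_insert] at hyU
      rcases hyU with hyK | hyU
      · obtain ⟨h, rfl⟩ := hrep y hyK
        exact ⟨x * θ p, step1 ⟨h, hy⟩, by rw [hmkx]; exact hK⟩
      · exact ⟨y, hy, hyU⟩
    have hxpS : x * (p : G) ∈ S := by
      by_contra hcon
      apply hcon
      refine s4 S hUS ?_ _ (by rw [hxp]; exact hK)
      intro y hy hyU
      have := hcl y hy (mem_insert_of_mem hyU)
      rwa [e3 y hyU (by rintro rfl; exact hcon hy)] at this
    have hcp : c * x * (p : G) ∈ S := by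
      have := hcl _ hxpS (mem_insert_of_mem (by rw [hxp]; exact hK))
      rwa [e4] at this
    have hall : ∀ h : M, c * x * (h : G) ∈ S := by
      have := hirr {h : M | c * x * (h : G) ∈ S} ⟨p, hcp⟩ (by
        intro h hh
        by_cases he : h = θ p
        · rw [he, Equiv.symm_apply_apply]
          exact hcp
        · exact cK h hh he)
      intro h
      have h2 : h ∈ {h : M | c * x * (h : G) ∈ S} := by rw [this]; trivial
      exact h2
    have hxθ := step1 ⟨p, hcp⟩
    have hU : ∀ y : G, (y : G ⧸ M) ∈ U → y ∈ S := by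
      refine s4 S hUS ?_
      intro y hy hyU
      by_cases he : y = x * p
      · rw [he, hp]
        exact hxθ
      · have := hcl y hy (mem_insert_of_mem hyU)
        rwa [e3 y hyU he] at this
    intro y hy
    rw [mem_insert] at hy
    rcases hy with hy | hy
    · obtain ⟨h, rfl⟩ := hrep y hy
      exact hall h
    · exact hU y hy
  · -- the edges in use
    intro L hL
    beta_reduce
    by_cases hLK : L = K'
    · rw [if_pos hLK, if_pos hLK]
      have : (univ.erase (θ p)).card = Fintype.card M - 1 := by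
        rw [card_erase_of_mem (mem_univ _), card_univ]
      rw [← this]
      apply card_le_card
      intro h hh
      rw [mem_erase] at hh
      rw [mem_filter]
      refine ⟨mem_univ _, ?_⟩
      rw [e1 h hh.1]
      rcases hθ with hθ | hθ
      · right
        rw [(hθ h).2]
      · left
        rw [(hθ h).2]
    · rw [if_neg hLK, if_neg hLK]
      have hLU : L ∈ U := (mem_insert.1 hL).resolve_left hLK
      have hfr : ∀ g : M, ((fr L * g : G) : G ⧸ M) = L := by
        intro g
        rw [mk_mul_mem, s1 L hLU]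
      by_cases hL2 : L = K
      · rw [if_pos hL2, hL2]
        have h1 := s5 K hK
        have h2 : ((univ.filter (fun g : M => σ (fr K * g) = fr K * τ g ∨
            σ (fr K * g) = fr K * τ.symm g)).erase p).card =
            (univ.filter (fun g : M => σ (fr K * g) = fr K * τ g ∨
            σ (fr K * g) = fr K * τ.symm g)).card - 1 := by
          apply card_erase_of_mem
          rw [mem_filter, ← hx, hp]
          refine ⟨mem_univ _, ?_⟩
          rcases hθ with hθ | hθ
          · left
            rw [(hθ p).1]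
          · right
            rw [(hθ p).1]
        refine le_trans (Nat.sub_le_sub_right h1 1) ?_
        rw [← h2]
        apply card_le_card
        intro h hh
        rw [mem_erase, mem_filter] at hh
        rw [mem_filter]
        refine ⟨mem_univ _, ?_⟩
        rw [← hx] at hh ⊢
        rw [e3 (x * h) (by rw [hmkx]; exact hK)
          (fun he => hh.1 (Subtype.ext (mul_left_cancel he)))]
        exact hh.2.2
      · rw [if_neg hL2]
        refine (s5 L hLU).trans ?_
        apply card_le_card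
        intro h hh
        rw [mem_filter] at hh ⊢
        refine ⟨mem_univ _, ?_⟩
        rw [e3 (fr L * h) (by rw [hfr]; exact hLU) (by
          intro he
          apply hL2
          rw [← hfr h, he, hxp])]
        exact hh.2


/-- Adjacency of cosets: some `s` all of whose `M`-conjugates lie in `A` leads from `K` to `K'`. -/
def CAdj (A : Set G) (M : Subgroup G) (K K' : G ⧸ M) : Prop :=
  K ≠ K' ∧ ∃ x s : G, (x : G ⧸ M) = K ∧ ((x * s : G) : G ⧸ M) = K' ∧
    ∀ h : M, (h : G)⁻¹ * s * h ∈ A

open Classical in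
/-- Inserting an adjacent coset. -/
theorem insert_gen {A : Set G} {M : Subgroup G} [Fintype M] {τ : Equiv.Perm M}
    (hinv : ∀ a ∈ A, a⁻¹ ∈ A) (hτA : ∀ h : M, ((h : G))⁻¹ * (τ h : G) ∈ A)
    (hirr : ∀ S : Set M, S.Nonempty → (∀ x ∈ S, τ x ∈ S) → S = Set.univ)
    {U : Finset (G ⧸ M)} {n : G ⧸ M → ℕ} (h : St A M τ U n) (K K' : G ⧸ M) (hK : K ∈ U)
    (hn : 1 ≤ n K) (hadj : CAdj A M K K') (hK' : K' ∉ U) :
    St A M τ (insert K' U) (fun L =>
      if L = K' then Fintype.card M - 1 else if L = K then n K - 1 else n L) := by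
  obtain ⟨σ, fr, s1, s2, s3, s4, s5⟩ := h
  obtain ⟨-, x0, s0, hx0, hs0, hconj⟩ := hadj
  -- the frame
  have hmem : (fr K)⁻¹ * x0 ∈ M := by
    rw [← QuotientGroup.eq, s1 K hK, hx0]
  obtain ⟨g, hg⟩ : ∃ g : M, (g : G) = (fr K)⁻¹ * x0 := ⟨⟨_, hmem⟩, rfl⟩
  have hx0' : x0 = fr K * g := by rw [hg, mul_inv_cancel_left]
  obtain ⟨c, hc⟩ : ∃ c : G, c = fr K * ((g : G) * s0 * (g : G)⁻¹) * (fr K)⁻¹ := ⟨_, rfl⟩
  have hcK : ((c * fr K : G) : G ⧸ M) = K' := by
    rw [← hs0, hx0', hc, QuotientGroup.eq]
    have e : (fr K * ((g : G) * s0 * (g : G)⁻¹) * (fr K)⁻¹ * fr K)⁻¹ * (fr K * (g : G) * s0) =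
      (g : G) := by group
    rw [e]
    exact g.2
  have hconj' : ∀ h : M, (fr K * h)⁻¹ * c * (fr K * h) ∈ A ∧
      (fr K * h)⁻¹ * c⁻¹ * (fr K * h) ∈ A := by
    intro h
    have e1 : (fr K * (h : G))⁻¹ * c * (fr K * h) =
        (((g⁻¹ * h : M) : G))⁻¹ * s0 * ((g⁻¹ * h : M) : G) := by
      rw [hc]
      push_cast
      group
    have e2 : (fr K * (h : G))⁻¹ * c⁻¹ * (fr K * h) =
        ((((g⁻¹ * h : M) : G))⁻¹ * s0 * ((g⁻¹ * h : M) : G))⁻¹ := by
      rw [hc]
      push_cast
      group
    rw [e1, e2]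
    exact ⟨hconj _, hinv _ (hconj _)⟩
  rw [← hcK] at hK' ⊢
  have h1 : 0 < (univ.filter (fun g : M => σ (fr K * g) = fr K * τ g ∨
      σ (fr K * g) = fr K * τ.symm g)).card := lt_of_lt_of_le hn (s5 K hK)
  obtain ⟨p, hp⟩ := card_pos.1 h1
  rw [mem_filter] at hp
  have hτA' : ∀ h : M, ((h : G))⁻¹ * (τ.symm h : G) ∈ A := by
    intro h
    have := hinv _ (hτA (τ.symm h))
    rwa [Equiv.apply_symm_apply, mul_inv_rev, inv_inv] at this
  rcases hp.2 with hp | hp
  · exact insert_core2 (θ := τ) (Or.inl fun _ => ⟨rfl, rfl⟩) hτA' (irr_symm τ hirr)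
      σ fr s1 s2 s3 s4 s5 K hK c hconj' p hp hK'
  · refine insert_core2 (θ := τ.symm) (Or.inr fun _ => ⟨rfl, rfl⟩) ?_ ?_
      σ fr s1 s2 s3 s4 s5 K hK c hconj' p hp hK'
    · exact hτA
    · exact hirr

open Classical in
/-- Building the cycle along a tree. -/
theorem along_tree [Finite G] {A : Set G} {M : Subgroup G} [Fintype M] {τ : Equiv.Perm M}
    (hinv : ∀ a ∈ A, a⁻¹ ∈ A) (hτA : ∀ h : M, ((h : G))⁻¹ * (τ h : G) ∈ A)
    (hirr : ∀ S : Set M, S.Nonempty → (∀ x ∈ S, τ x ∈ S) → S = Set.univ)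
    (hL : 3 ≤ Fintype.card M) [Fintype (G ⧸ M)] (r : G ⧸ M) (par : G ⧸ M → G ⧸ M)
    (dp : G ⧸ M → ℕ) (hpar : ∀ x, x ≠ r → CAdj A M x (par x) ∧ dp (par x) < dp x)
    (hdeg : ∀ x, (univ.filter (fun y => y ≠ r ∧ par y = x)).card + (if x = r then 0 else 1) ≤ 3) :
    ∃ n', St A M τ univ n' := by
  have symm : ∀ K K' : G ⧸ M, CAdj A M K K' → CAdj A M K' K := by
    rintro K K' ⟨hne, x, s, hx, hs, hc⟩
    refine ⟨hne.symm, x * s, s⁻¹, hs, by rw [mul_inv_cancel_right]; exact hx, fun h => ?_⟩
    have e : (h : G)⁻¹ * s⁻¹ * h = ((h : G)⁻¹ * s * h)⁻¹ := by group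
    rw [e]
    exact hinv _ (hc h)
  have key : ∀ (N : ℕ) (U : Finset (G ⧸ M)), (univ \ U).card = N → r ∈ U →
      (∀ x ∈ U, x ≠ r → par x ∈ U) →
      St A M τ U (fun x => Fintype.card M - (U.filter (fun y => y ≠ r ∧ par y = x)).card -
        (if x = r then 0 else 1)) → ∃ n', St A M τ univ n' := by
    intro N
    induction N using Nat.strong_induction_on with
    | _ N ih =>
      intro U hN hrU hcl hSt
      by_cases hU : U = univ
      · rw [hU] at hSt
        exact ⟨_, hSt⟩
      · have hne : (univ \ U).Nonempty := by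
          rw [sdiff_nonempty]
          intro h
          exact hU (eq_univ_of_forall fun x => h (mem_univ x))
        obtain ⟨x, hx, hmin⟩ := exists_min_image (univ \ U) dp hne
        rw [mem_sdiff] at hx
        have hxU := hx.2
        have hxr : x ≠ r := by
          rintro rfl
          exact hxU hrU
        have hpx := hpar x hxr
        have hpU : par x ∈ U := by
          by_contra hcon
          have := hmin (par x) (mem_sdiff.2 ⟨mem_univ _, hcon⟩)
          omega
        have hpne : x ≠ par x := hpx.1.1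
        -- the degree of the parent
        have hc1 : (U.filter (fun y => y ≠ r ∧ par y = par x)).card + 1 ≤
            (univ.filter (fun y => y ≠ r ∧ par y = par x)).card := by
          rw [← card_insert_of_notMem (a := x) (by
            rw [mem_filter]
            exact fun h => hxU h.1)]
          apply card_le_card
          intro y hy
          rw [mem_insert, mem_filter] at hy
          rw [mem_filter]
          rcases hy with rfl | hy
          · exact ⟨mem_univ _, hxr, rfl⟩
          · exact ⟨mem_univ _, hy.2⟩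
        have hc2 := hdeg (par x)
        have h1 : 1 ≤ Fintype.card M - (U.filter (fun y => y ≠ r ∧ par y = par x)).card -
            (if par x = r then 0 else 1) := by
          split_ifs at hc2 ⊢ <;> omega
        have hSt1 := insert_gen hinv hτA hirr hSt (par x) x hpU h1 (symm _ _ hpx.1) hxU
        refine ih _ ?_ (insert x U) rfl (mem_insert_of_mem hrU) ?_ ?_
        · rw [← hN]
          apply card_lt_card
          rw [ssubset_iff_of_subset (by
            intro y hy
            rw [mem_sdiff, mem_insert, not_or] at hy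
            exact mem_sdiff.2 ⟨mem_univ _, hy.2.2⟩)]
          exact ⟨x, mem_sdiff.2 ⟨mem_univ _, hxU⟩, fun h =>
            (mem_sdiff.1 h).2 (mem_insert_self _ _)⟩
        · intro y hy hyr
          rw [mem_insert] at hy ⊢
          rcases hy with rfl | hy
          · exact Or.inr hpU
          · exact Or.inr (hcl y hy hyr)
        · apply hSt1.mono
          intro L hL'
          have e : ((insert x U).filter (fun y => y ≠ r ∧ par y = L)).card =
              (U.filter (fun y => y ≠ r ∧ par y = L)).card + (if par x = L then 1 else 0) := by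
            rw [filter_insert]
            by_cases hpL : par x = L
            · rw [if_pos ⟨hxr, hpL⟩, if_pos hpL, card_insert_of_notMem]
              rw [mem_filter]
              exact fun h => hxU h.1
            · rw [if_neg (fun h => hpL h.2), if_neg hpL, add_zero]
          by_cases hLx : L = x
          · rw [if_pos hLx, hLx, if_neg hxr]
            omega
          · rw [if_neg hLx, e]
            by_cases hLp : L = par x
            · rw [if_pos hLp, hLp, if_pos rfl]
              omega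
            · rw [if_neg hLp, if_neg (fun h => hLp h.symm), add_zero]
  -- the initial state
  obtain ⟨x0, hx0⟩ := QuotientGroup.mk_surjective r
  have hmk : ∀ x : G, (x : G ⧸ M) ∈ ({r} : Finset (G ⧸ M)) ↔ x0⁻¹ * x ∈ M := by
    intro x
    rw [mem_singleton, ← hx0, eq_comm, QuotientGroup.eq]
  refine key _ {r} rfl (mem_singleton_self r) ?_ ?_
  · intro x hx hxr
    exact absurd (mem_singleton.1 hx) hxr
  · have hSt : St A M τ {r} (fun _ => Fintype.card M) := by
      refine ⟨fun x => if h : x0⁻¹ * x ∈ M then x0 * (τ ⟨x0⁻¹ * x, h⟩ : G) else x, fun _ => x0,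
        ?_, ?_, ?_, ?_, ?_⟩
      · intro K hK
        rw [mem_singleton.1 hK]
        exact hx0
      · intro x hx
        rw [hmk] at hx
        simp only [dif_pos hx]
        rw [hmk]
        constructor
        · rw [inv_mul_cancel_left]
          exact (τ ⟨x0⁻¹ * x, hx⟩).2
        · have := hτA ⟨x0⁻¹ * x, hx⟩
          have e : x⁻¹ * (x0 * (τ ⟨x0⁻¹ * x, hx⟩ : G)) =
            (x0⁻¹ * x)⁻¹ * (τ ⟨x0⁻¹ * x, hx⟩ : G) := by group
          rw [e]
          exact this
      · intro x y hx hy hxy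
        rw [hmk] at hx hy
        simp only [dif_pos hx, dif_pos hy] at hxy
        have := τ.injective (Subtype.ext (mul_left_cancel hxy))
        exact mul_left_cancel (congrArg Subtype.val this)
      · rintro S ⟨x, hx, hxM⟩ hS y hy
        rw [hmk] at hxM hy
        have h1 := hirr {h : M | x0 * (h : G) ∈ S} ⟨⟨x0⁻¹ * x, hxM⟩, by
            show x0 * (x0⁻¹ * x) ∈ S
            rwa [mul_inv_cancel_left]⟩ (by
          intro h hh
          have hm : x0⁻¹ * (x0 * (h : G)) ∈ M := by rw [inv_mul_cancel_left]; exact h.2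
          have h2 := hS _ hh ((hmk _).2 hm)
          simp only [dif_pos hm] at h2
          have e : (⟨x0⁻¹ * (x0 * (h : G)), hm⟩ : M) = h :=
            Subtype.ext (inv_mul_cancel_left _ _)
          rw [e] at h2
          exact h2)
        have h2 : (⟨x0⁻¹ * y, hy⟩ : M) ∈ {h : M | x0 * (h : G) ∈ S} := by rw [h1]; trivial
        have h3 : x0 * (x0⁻¹ * y) ∈ S := h2
        rwa [mul_inv_cancel_left] at h3
      · intro K _
        rw [filter_true_of_mem, card_univ]
        intro g _
        left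
        have hm : x0⁻¹ * (x0 * (g : G)) ∈ M := by rw [inv_mul_cancel_left]; exact g.2
        simp only [dif_pos hm]
        congr 3
        exact Subtype.ext (inv_mul_cancel_left _ _)
    apply hSt.mono
    intro K _
    omega

end Pool.Agent.H65T.NC
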