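import Mathlib

set_option autoImplicit false

/-!
# Edge cuts of a connected vertex-transitive graph (Mader, Watkins)

Every proper nonempty set of vertices of a finite connected vertex-transitive graph is left by at
least `k` edges, where `k` is the degree.
-/

namespace Pool.Agent.H65T.NC.Win

open Finset

universe u
variable {V : Type u} [Fintype V]

open Classical

/-- The number of (ordered) edges leaving `F`. -/
noncomputable def bd (Adj : V → V → Prop) (F : Finset V) : ℕ :=
  (univ.filter (fun p : V × V => p.1 ∈ F ∧ p.2 ∉ F ∧ Adj p.1 p.2)).card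

theorem bd_eq (Adj : V → V → Prop) (F : Finset V) :
    bd Adj F = ∑ p : V × V, if p.1 ∈ F ∧ p.2 ∉ F ∧ Adj p.1 p.2 then 1 else 0 := by
  rw [bd, card_filter]

theorem bd_submod (Adj : V → V → Prop) (F F' : Finset V) :
    bd Adj (F ∩ F') + bd Adj (F ∪ F') ≤ bd Adj F + bd Adj F' := by
  simp only [bd_eq]
  rw [← sum_add_distrib, ← sum_add_distrib]
  apply sum_le_sum
  intro p _
  simp only [mem_inter, mem_union]
  by_cases h1 : p.1 ∈ F <;> by_cases h2 : p.1 ∈ F' <;> by_cases h3 : p.2 ∈ F <;>
    by_cases h4 : p.2 ∈ F' <;> by_cases h5 : Adj p.1 p.2 <;> simp [h1, h2, h3, h4, h5]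

theorem bd_compl (Adj : V → V → Prop) (symm : ∀ a b, Adj a b → Adj b a) (F : Finset V) :
    bd Adj Fᶜ = bd Adj F := by
  unfold bd
  apply card_bij (fun p _ => (p.2, p.1))
  · intro p hp
    rw [mem_filter] at hp ⊢
    simp only [mem_compl, not_not] at hp
    exact ⟨mem_univ _, hp.2.2.1, hp.2.1, symm _ _ hp.2.2.2⟩
  · intro p _ q _ h
    simp only [Prod.mk.injEq] at h
    exact Prod.ext h.2 h.1
  · intro p hp
    rw [mem_filter] at hp
    refine ⟨(p.2, p.1), ?_, rfl⟩
    rw [mem_filter]
    simp only [mem_compl, not_not]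
    exact ⟨mem_univ _, hp.2.2.1, hp.2.1, symm _ _ hp.2.2.2⟩

theorem bd_map (Adj : V → V → Prop) (g : Equiv.Perm V) (hg : ∀ x y, Adj x y ↔ Adj (g x) (g y))
    (F : Finset V) : bd Adj (F.map g.toEmbedding) = bd Adj F := by
  unfold bd
  symm
  apply card_bij (fun p _ => (g p.1, g p.2))
  · intro p hp
    rw [mem_filter] at hp ⊢
    refine ⟨mem_univ _, ?_, ?_, ?_⟩
    · simpa using hp.2.1
    · simpa using hp.2.2.1
    · exact (hg _ _).1 hp.2.2.2
  · intro p _ q _ h
    simp only [Prod.mk.injEq, EmbeddingLike.apply_eq_iff_eq] at h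
    exact Prod.ext h.1 h.2
  · intro p hp
    rw [mem_filter] at hp
    refine ⟨(g.symm p.1, g.symm p.2), ?_, by simp⟩
    rw [mem_filter]
    refine ⟨mem_univ _, ?_, ?_, ?_⟩
    · have := hp.2.1
      rw [mem_map_equiv] at this
      exact this
    · have := hp.2.2.1
      rw [mem_map_equiv] at this
      exact this
    · rw [hg]
      simpa using hp.2.2.2

theorem bd_sum (Adj : V → V → Prop) (F : Finset V) :
    bd Adj F = ∑ a ∈ F, (univ.filter (fun b => b ∉ F ∧ Adj a b)).card := by
  unfold bd
  rw [card_eq_sum_card_fiberwise (f := fun p : V × V => p.1) (t := F)]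
  · apply sum_congr rfl
    intro a ha
    symm
    apply card_bij (fun b _ => (a, b))
    · intro b hb
      rw [mem_filter] at hb
      rw [mem_filter, mem_filter]
      exact ⟨⟨mem_univ _, ha, hb.2.1, hb.2.2⟩, rfl⟩
    · intro b _ c _ h
      simp only [Prod.mk.injEq] at h
      exact h.2
    · intro p hp
      rw [mem_filter, mem_filter] at hp
      refine ⟨p.2, ?_, ?_⟩
      · rw [mem_filter]
        exact ⟨mem_univ _, hp.1.2.2.1, by rw [← hp.2]; exact hp.1.2.2.2⟩
      · rw [← hp.2]
  · intro p hp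
    rw [mem_coe, mem_filter] at hp
    exact hp.2.1

/-- **Mader, Watkins**: cuts of a connected vertex-transitive graph. -/
theorem mader (Adj : V → V → Prop) (symm : ∀ a b, Adj a b → Adj b a)
    (irr : ∀ a, ¬ Adj a a)
    (hconn : ∀ S : Set V, S.Nonempty → (∀ a ∈ S, ∀ b, Adj a b → b ∈ S) → S = Set.univ)
    (htrans : ∀ a b : V, ∃ g : Equiv.Perm V, g a = b ∧ ∀ x y, Adj x y ↔ Adj (g x) (g y))
    (k : ℕ) (hk : ∀ a, (univ.filter (fun b => Adj a b)).card = k)
    (F0 : Finset V) (h0 : F0.Nonempty) (h1 : F0 ≠ univ) : k ≤ bd Adj F0 := by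
  -- positivity of the boundary
  have hpos : ∀ F : Finset V, F.Nonempty → F ≠ univ → 1 ≤ bd Adj F := by
    intro F hF hF'
    by_contra hcon
    have hz : bd Adj F = 0 := by omega
    unfold bd at hz
    rw [card_eq_zero, filter_eq_empty_iff] at hz
    have := hconn (↑F : Set V) (by simpa using hF) (by
      intro a ha b hab
      by_contra hb
      exact hz (mem_univ (a, b)) ⟨by simpa using ha, by simpa using hb, hab⟩)
    apply hF'
    rw [← coe_univ] at this
    exact_mod_cast this
  obtain ⟨N, hN⟩ : ∃ N, N = Fintype.card V := ⟨_, rfl⟩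
  obtain ⟨F, hF, hmin⟩ := exists_min_image
    (univ.filter (fun F : Finset V => F.Nonempty ∧ F ≠ univ)) (fun F => bd Adj F * (N + 1) + F.card)
    ⟨F0, by rw [mem_filter]; exact ⟨mem_univ _, h0, h1⟩⟩
  rw [mem_filter] at hF
  obtain ⟨-, hFn, hFu⟩ := hF
  have hm1 : ∀ F' : Finset V, F'.Nonempty → F' ≠ univ → bd Adj F ≤ bd Adj F' := by
    intro F' h h'
    have := hmin F' (by rw [mem_filter]; exact ⟨mem_univ _, h, h'⟩)
    have hc : F'.card ≤ N := by rw [hN]; exact card_le_univ _
    by_contra hcon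
    have h2 : bd Adj F' + 1 ≤ bd Adj F := by omega
    have h3 := Nat.mul_le_mul_right (N + 1) h2
    nlinarith
  have hm2 : ∀ F' : Finset V, F'.Nonempty → F' ≠ univ → bd Adj F' ≤ bd Adj F →
      F.card ≤ F'.card := by
    intro F' h h' hb
    have := hmin F' (by rw [mem_filter]; exact ⟨mem_univ _, h, h'⟩)
    have hb' : bd Adj F' = bd Adj F := le_antisymm hb (hm1 F' h h')
    simp only [hb'] at this
    omega
  have hcompl : F.card ≤ Fᶜ.card := by
    apply hm2
    · rw [nonempty_iff_ne_empty]
      intro h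
      exact hFu (by rwa [compl_eq_empty_iff] at h)
    · intro h
      rw [compl_eq_univ_iff] at h
      exact hFn.ne_empty h
    · rw [bd_compl Adj symm]
  have hhalf : F.card + F.card ≤ N := by
    have := card_add_card_compl F
    omega
  -- blocks
  have hblock : ∀ g : Equiv.Perm V, (∀ x y, Adj x y ↔ Adj (g x) (g y)) →
      (F ∩ F.map g.toEmbedding).Nonempty → F.map g.toEmbedding = F := by
    intro g hg hne
    obtain ⟨F', hF'⟩ : ∃ F', F' = F.map g.toEmbedding := ⟨_, rfl⟩
    have hc : F'.card = F.card := by rw [hF', card_map]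
    have hb : bd Adj F' = bd Adj F := by rw [hF', bd_map Adj g hg]
    rw [← hF'] at hne ⊢
    have hi : (F ∩ F').card ≤ F.card := card_le_card inter_subset_left
    have hpos' : 0 < (F ∩ F').card := card_pos.2 hne
    have hun := card_union_add_card_inter F F'
    have hFc : 0 < F.card := card_pos.2 hFn
    have h2 : F ∪ F' ≠ univ := by
      intro h
      have : (F ∪ F').card = N := by rw [h, hN, card_univ]
      omega
    have h3 : F ∩ F' ≠ univ := by
      intro h
      have : (F ∩ F').card = N := by rw [h, hN, card_univ]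
      omega
    have h4 := hm1 (F ∪ F') (hFn.mono subset_union_left) h2
    have h5 := bd_submod Adj F F'
    have h6 := hm2 (F ∩ F') hne h3 (by omega)
    have h7 : F ∩ F' = F := eq_of_subset_of_card_le inter_subset_left h6
    have h8 : F ⊆ F' := by rw [← h7]; exact inter_subset_right
    exact (eq_of_subset_of_card_le h8 (by omega)).symm
  -- the inner degree is constant
  obtain ⟨u0, hu0⟩ := hFn
  obtain ⟨δ, hδ⟩ : ∃ δ, δ = (univ.filter (fun b => b ∈ F ∧ Adj u0 b)).card := ⟨_, rfl⟩
  have hin : ∀ v ∈ F, (univ.filter (fun b => b ∈ F ∧ Adj v b)).card = δ := by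
    intro v hv
    obtain ⟨g, hgv, hg⟩ := htrans u0 v
    have hgF := hblock g hg ⟨v, by
      rw [mem_inter]
      refine ⟨hv, ?_⟩
      rw [mem_map]
      exact ⟨u0, hu0, hgv⟩⟩
    have hmem : ∀ x, g x ∈ F ↔ x ∈ F := by
      intro x
      conv_lhs => rw [← hgF]
      rw [mem_map_equiv]
      simp
    rw [hδ]
    symm
    apply card_bij (fun b _ => g b)
    · intro b hb
      rw [mem_filter] at hb ⊢
      refine ⟨mem_univ _, (hmem b).2 hb.2.1, ?_⟩
      rw [← hgv, ← hg]
      exact hb.2.2
    · intro b _ c _ h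
      exact g.injective h
    · intro b hb
      rw [mem_filter] at hb
      refine ⟨g.symm b, ?_, by simp⟩
      rw [mem_filter]
      refine ⟨mem_univ _, (hmem _).1 (by simpa using hb.2.1), ?_⟩
      rw [hg, hgv]
      simpa using hb.2.2
  have hδF : δ + 1 ≤ F.card := by
    rw [hδ]
    rw [← card_insert_of_notMem (a := u0) (by
      rw [mem_filter]
      rintro ⟨-, -, h⟩
      exact irr _ h)]
    apply card_le_card
    intro b hb
    rw [mem_insert, mem_filter] at hb
    rcases hb with rfl | hb
    · exact hu0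
    · exact hb.2.1
  have hout : ∀ v ∈ F, (univ.filter (fun b => b ∉ F ∧ Adj v b)).card + δ = k := by
    intro v hv
    rw [← hin v hv, ← hk v, ← card_union_of_disjoint]
    · congr 1
      ext b
      simp only [mem_union, mem_filter, mem_univ, true_and]
      tauto
    · rw [disjoint_left]
      intro b hb hb'
      rw [mem_filter] at hb hb'
      exact hb.2.1 hb'.2.1
  have hsum : bd Adj F = F.card * (k - δ) := by
    rw [bd_sum, card_eq_sum_ones, sum_mul]
    apply sum_congr rfl
    intro v hv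
    have := hout v hv
    omega
  have hFpos := hpos F ⟨u0, hu0⟩ hFu
  have hkδ : 1 ≤ k - δ := by
    by_contra hcon
    have : k - δ = 0 := by omega
    rw [hsum, this] at hFpos
    omega
  have hfin := hm1 F0 h0 h1
  rw [hsum] at hfin
  obtain ⟨c, hc⟩ : ∃ c, k - δ = c + 1 := ⟨k - δ - 1, by omega⟩
  obtain ⟨f, hf⟩ : ∃ f, F.card = δ + 1 + f := ⟨F.card - δ - 1, by omega⟩
  rw [hc, hf] at hfin
  have hkk : k = δ + (c + 1) := by omega
  rw [hkk]
  nlinarith [Nat.zero_le (δ * c), Nat.zero_le (f * c)]

end Pool.Agent.H65T.NC.Win
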