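import Mathlib
import Pool.Agent.H65T.NC.Mader

set_option autoImplicit false

/-!
# Spanning trees of maximum degree three in connected vertex-transitive graphs
-/

namespace Pool.Agent.H65T.NC.Win

open Finset

set_option linter.unusedSectionVars false

universe u
variable {V : Type u} [Fintype V]

open Classical

/-- A connected subgraph on the vertex set `X`, of maximum degree at most `3`. -/
structure Good (Adj : V → V → Prop) (X : Finset V) (R : V → V → Prop) : Prop where
  symm : ∀ a b, R a b → R b a
  sub : ∀ a b, R a b → Adj a b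
  mem : ∀ a b, R a b → a ∈ X
  conn : ∀ S ⊆ X, S.Nonempty → S ≠ X → ∃ a ∈ S, ∃ b ∈ X, b ∉ S ∧ R a b
  deg : ∀ a, (univ.filter (fun b => R a b)).card ≤ 3

theorem exists_tree {Adj R : V → V → Prop} {X : Finset V} (h : Good Adj X R) (r : V) (hr : r ∈ X) :
    ∃ (par : V → V) (dp : V → ℕ), ∀ x ∈ X, x ≠ r → par x ∈ X ∧ R (par x) x ∧ dp (par x) < dp x := by
  obtain ⟨S, hS, hmax⟩ := exists_max_image
    (X.powerset.filter (fun S => r ∈ S ∧ ∃ (par : V → V) (dp : V → ℕ), ∀ x ∈ S, x ≠ r →
      par x ∈ S ∧ R (par x) x ∧ dp (par x) < dp x)) card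
    ⟨{r}, by
      rw [mem_filter, mem_powerset]
      refine ⟨singleton_subset_iff.2 hr, mem_singleton_self _, fun x => x, fun _ => 0, ?_⟩
      intro x hx hne
      exact absurd (mem_singleton.1 hx) hne⟩
  rw [mem_filter, mem_powerset] at hS
  obtain ⟨hSX, hrS, par, dp, hp⟩ := hS
  by_cases hSX' : S = X
  · rw [← hSX']; exact ⟨par, dp, hp⟩
  · exfalso
    obtain ⟨a, ha, b, hb, hbS, hab⟩ := h.conn S hSX ⟨r, hrS⟩ hSX'
    have := hmax (insert b S) (by
      rw [mem_filter, mem_powerset]
      refine ⟨insert_subset hb hSX, mem_insert_of_mem hrS, Function.update par b a,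
        Function.update dp b (dp a + 1), ?_⟩
      intro x hx hne
      rw [mem_insert] at hx
      have hab' : a ≠ b := fun e => hbS (e ▸ ha)
      rcases hx with rfl | hx
      · rw [Function.update_self, Function.update_self, Function.update_of_ne hab']
        exact ⟨mem_insert_of_mem ha, hab, Nat.lt_succ_self _⟩
      · have hxb : x ≠ b := fun e => hbS (e ▸ hx)
        obtain ⟨h1, h2, h3⟩ := hp x hx hne
        have hpb : par x ≠ b := fun e => hbS (e ▸ h1)
        rw [Function.update_of_ne hxb, Function.update_of_ne hxb, Function.update_of_ne hpb]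
        exact ⟨mem_insert_of_mem h1, h2, h3⟩)
    rw [card_insert_of_notMem hbS] at this
    omega

/-- One step towards the root. -/
def step (X : Finset V) (r : V) (par : V → V) (y z : V) : Prop := y ∈ X ∧ y ≠ r ∧ par y = z

/-- `x` is an ancestor of `y` (or `y` itself). -/
def An (X : Finset V) (r : V) (par : V → V) (y x : V) : Prop :=
  Relation.ReflTransGen (step X r par) y x

section tree
variable {X : Finset V} {r : V} {par : V → V} {dp : V → ℕ}

theorem an_refl (x : V) : An X r par x x := Relation.ReflTransGen.refl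

theorem an_head {y x : V} (h : An X r par y x) : y = x ∨ (y ∈ X ∧ y ≠ r ∧ An X r par (par y) x) := by
  rcases Relation.ReflTransGen.cases_head h with h | ⟨c, h1, h2⟩
  · exact Or.inl h
  · right
    refine ⟨h1.1, h1.2.1, ?_⟩
    rw [h1.2.2]
    exact h2

theorem an_step {y x : V} (hy : y ∈ X) (hr : y ≠ r) (h : An X r par (par y) x) :
    An X r par y x :=
  Relation.ReflTransGen.head ⟨hy, hr, rfl⟩ h

theorem an_dp (ht : ∀ x ∈ X, x ≠ r → par x ∈ X ∧ dp (par x) < dp x) {y x : V}
    (h : An X r par y x) : y = x ∨ dp x < dp y := by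
  induction h using Relation.ReflTransGen.head_induction_on with
  | refl => exact Or.inl rfl
  | head h1 _ ih =>
    right
    obtain ⟨ha, hb, rfl⟩ := h1
    have := (ht _ ha hb).2
    rcases ih with ih | ih
    · rw [ih] at this; exact this
    · omega

theorem an_antisymm (ht : ∀ x ∈ X, x ≠ r → par x ∈ X ∧ dp (par x) < dp x) {y x : V}
    (h : An X r par y x) (h' : An X r par x y) : y = x := by
  rcases an_dp ht h with h1 | h1
  · exact h1
  · rcases an_dp ht h' with h2 | h2
    · exact h2.symm
    · omega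

theorem an_mem (ht : ∀ x ∈ X, x ≠ r → par x ∈ X ∧ dp (par x) < dp x) {y x : V}
    (h : An X r par y x) (hy : y ∈ X) : x ∈ X := by
  induction h using Relation.ReflTransGen.head_induction_on with
  | refl => exact hy
  | head h1 _ ih =>
    obtain ⟨ha, hb, rfl⟩ := h1
    exact ih (ht _ ha hb).1

theorem an_mem' {y x : V} (h : An X r par y x) (hx : x ∈ X) : y ∈ X := by
  rcases an_head h with h | h
  · rw [h]; exact hx
  · exact h.1

theorem an_root (ht : ∀ x ∈ X, x ≠ r → par x ∈ X ∧ dp (par x) < dp x) :
    ∀ (n : ℕ) (y : V), dp y = n → y ∈ X → An X r par y r := by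
  intro n
  induction n using Nat.strong_induction_on with
  | _ n ih =>
    intro y hn hy
    by_cases hyr : y = r
    · rw [hyr]; exact an_refl r
    · have := ht y hy hyr
      exact an_step hy hyr (ih (dp (par y)) (by omega) (par y) rfl this.1)

theorem par_not_an (ht : ∀ x ∈ X, x ≠ r → par x ∈ X ∧ dp (par x) < dp x) {x : V} (hx : x ∈ X)
    (hr : x ≠ r) : ¬ An X r par (par x) x := by
  intro h
  have h1 := (ht x hx hr).2
  rcases an_dp ht h with h2 | h2
  · rw [h2] at h1; omega
  · omega

/-- The tree edges. -/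
def Tr (X : Finset V) (r : V) (par : V → V) (a b : V) : Prop := step X r par a b ∨ step X r par b a

theorem tr_cross {y a b : V} (h : Tr X r par a b) (ha : An X r par a y) (hb : ¬ An X r par b y) :
    a = y ∧ b = par y := by
  rcases h with ⟨h1, h2, h3⟩ | ⟨h1, h2, h3⟩
  · rcases an_head ha with h | h
    · rw [← h]; exact ⟨rfl, h3.symm⟩
    · exfalso
      apply hb
      rw [← h3]
      exact h.2.2
  · exfalso
    apply hb
    exact an_step h1 h2 (by rw [h3]; exact ha)

theorem tr_conn (ht : ∀ x ∈ X, x ≠ r → par x ∈ X ∧ dp (par x) < dp x) (hr : r ∈ X) :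
    ∀ S ⊆ X, S.Nonempty → S ≠ X → ∃ a ∈ S, ∃ b ∈ X, b ∉ S ∧ Tr X r par a b := by
  intro S hSX hSn hSne
  by_cases hrS : r ∈ S
  · have hne : (X \ S).Nonempty := by
      rw [sdiff_nonempty]
      intro h
      exact hSne (subset_antisymm hSX h)
    obtain ⟨x, hx, hmin⟩ := exists_min_image (X \ S) dp hne
    rw [mem_sdiff] at hx
    have hxr : x ≠ r := by
      rintro rfl
      exact hx.2 hrS
    have hp := ht x hx.1 hxr
    have hpS : par x ∈ S := by
      by_contra hcon
      have := hmin (par x) (mem_sdiff.2 ⟨hp.1, hcon⟩)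
      omega
    exact ⟨par x, hpS, x, hx.1, hx.2, Or.inr ⟨hx.1, hxr, rfl⟩⟩
  · obtain ⟨x, hx, hmin⟩ := exists_min_image S dp hSn
    have hxr : x ≠ r := by
      rintro rfl
      exact hrS hx
    have hp := ht x (hSX hx) hxr
    have hpS : par x ∉ S := by
      intro hcon
      have := hmin (par x) hcon
      omega
    exact ⟨x, hx, par x, hp.1, hpS, Or.inl ⟨hSX hx, hxr, rfl⟩⟩

end tree

/-- The exchange: two connected graphs are glued along a new edge. -/
theorem combine {Adj : V → V → Prop} (symm : ∀ a b, Adj a b → Adj b a) {X : Finset V}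
    {R1 R2 : V → V → Prop} (h1 : Good Adj X R1) (h2 : Good Adj X R2)
    (D : Finset V) (hD : D ⊆ X) (x p : V) (hx : x ∈ D) (hp : p ∈ X) (hpD : p ∉ D)
    (c1 : ∀ a b, a ∈ D → b ∉ D → R1 a b → a = x ∧ b = p)
    (c2 : ∀ a b, a ∈ D → b ∉ D → R2 a b → a = x ∧ b = p)
    (u v : V) (hu : u ∈ D) (hv : v ∈ X) (hvD : v ∉ D) (huv : Adj u v)
    (du : (univ.filter (fun b => R1 u b)).card ≤ 2)
    (dv : (univ.filter (fun b => R2 v b)).card ≤ 2) :
    ∃ R, Good Adj X R ∧
      (∀ w, (w = x ∨ w = p) → w ≠ u → w ≠ v → (univ.filter (fun b => R w b)).card ≤ 2) ∧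
      ∀ a b, R a b → (R1 a b ∧ a ∈ D ∧ b ∈ D) ∨ (R2 a b ∧ a ∉ D ∧ b ∉ D) ∨
        (a = u ∧ b = v) ∨ (a = v ∧ b = u) := by
  have hxX := hD hx
  have inner1 : ∀ S ⊆ D, S.Nonempty → S ≠ D → ∃ a ∈ S, ∃ b ∈ D, b ∉ S ∧ R1 a b := by
    intro S hS hSn hSne
    by_cases hxS : x ∈ S
    · have hne : (D \ S).Nonempty := by
        rw [sdiff_nonempty]
        intro h
        exact hSne (subset_antisymm hS h)
      obtain ⟨a, ha, b, hb, hbS, hab⟩ := h1.conn (D \ S) (sdiff_subset.trans hD) hne (by
        intro h
        rw [← h, mem_sdiff] at hxX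
        exact hxX.2 hxS)
      rw [mem_sdiff] at ha hbS
      have hbD : b ∈ D := by
        by_contra hcon
        have := (c1 a b ha.1 hcon hab).1
        rw [this] at ha
        exact ha.2 hxS
      have hbS' : b ∈ S := by
        by_contra hcon
        exact hbS ⟨hbD, hcon⟩
      exact ⟨b, hbS', a, ha.1, ha.2, h1.symm _ _ hab⟩
    · obtain ⟨a, ha, b, hb, hbS, hab⟩ := h1.conn S (hS.trans hD) hSn (by
        rintro rfl
        exact hxS hxX)
      refine ⟨a, ha, b, ?_, hbS, hab⟩
      by_contra hcon
      have := (c1 a b (hS ha) hcon hab).1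
      rw [this] at ha
      exact hxS ha
  have inner2 : ∀ S ⊆ X \ D, S.Nonempty → S ≠ X \ D → ∃ a ∈ S, ∃ b ∈ X \ D, b ∉ S ∧ R2 a b := by
    intro S hS hSn hSne
    by_cases hpS : p ∈ S
    · have hne : ((X \ D) \ S).Nonempty := by
        rw [sdiff_nonempty]
        intro h
        exact hSne (subset_antisymm hS h)
      obtain ⟨a, ha, b, hb, hbS, hab⟩ := h2.conn ((X \ D) \ S) (sdiff_subset.trans sdiff_subset)
        hne (by
          intro h
          rw [← h, mem_sdiff, mem_sdiff] at hxX
          exact hxX.1.2 hx)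
      rw [mem_sdiff, mem_sdiff] at ha hbS
      have hbD : b ∉ D := by
        intro hcon
        have := (c2 b a hcon ha.1.2 (h2.symm _ _ hab)).2
        rw [this] at ha
        exact ha.2 hpS
      have hbS' : b ∈ S := by
        by_contra hcon
        exact hbS ⟨⟨hb, hbD⟩, hcon⟩
      exact ⟨b, hbS', a, mem_sdiff.2 ha.1, ha.2, h2.symm _ _ hab⟩
    · obtain ⟨a, ha, b, hb, hbS, hab⟩ := h2.conn S (hS.trans sdiff_subset) hSn (by
        rintro rfl
        exact hpS hp)
      refine ⟨a, ha, b, ?_, hbS, hab⟩
      rw [mem_sdiff]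
      refine ⟨hb, fun hcon => ?_⟩
      have haD : a ∉ D := (mem_sdiff.1 (hS ha)).2
      have := (c2 b a hcon haD (h2.symm _ _ hab)).2
      rw [this] at ha
      exact hpS ha
  have e1 : R1 x p := by
    obtain ⟨a, ha, b, hb, hbD, hab⟩ := h1.conn D hD ⟨x, hx⟩ (by
      rintro rfl
      exact hpD hp)
    have := c1 a b ha hbD hab
    rwa [this.1, this.2] at hab
  have e2 : R2 x p := by
    obtain ⟨a, ha, b, hb, hbD, hab⟩ := h2.conn D hD ⟨x, hx⟩ (by
      rintro rfl
      exact hpD hp)
    have := c2 a b ha hbD hab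
    rwa [this.1, this.2] at hab
  have huv' : u ≠ v := fun e => hvD (e ▸ hu)
  obtain ⟨R, hR⟩ : ∃ R : V → V → Prop, ∀ a b, R a b ↔ ((R1 a b ∧ a ∈ D ∧ b ∈ D) ∨
      (R2 a b ∧ a ∉ D ∧ b ∉ D) ∨ (a = u ∧ b = v) ∨ (a = v ∧ b = u)) := ⟨_, fun _ _ => Iff.rfl⟩
  refine ⟨R, ?_, ?_, fun a b h => (hR a b).1 h⟩
  · refine ⟨?_, ?_, ?_, ?_, ?_⟩
    · intro a b hab
      rw [hR] at hab ⊢
      rcases hab with h | h | h | h
      · exact Or.inl ⟨h1.symm _ _ h.1, h.2.2, h.2.1⟩
      · exact Or.inr (Or.inl ⟨h2.symm _ _ h.1, h.2.2, h.2.1⟩)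
      · exact Or.inr (Or.inr (Or.inr ⟨h.2, h.1⟩))
      · exact Or.inr (Or.inr (Or.inl ⟨h.2, h.1⟩))
    · intro a b hab
      rw [hR] at hab
      rcases hab with h | h | h | h
      · exact h1.sub _ _ h.1
      · exact h2.sub _ _ h.1
      · rw [h.1, h.2]; exact huv
      · rw [h.1, h.2]; exact symm _ _ huv
    · intro a b hab
      rw [hR] at hab
      rcases hab with h | h | h | h
      · exact h1.mem _ _ h.1
      · exact h2.mem _ _ h.1
      · rw [h.1]; exact hD hu
      · rw [h.1]; exact hv
    · intro S hS hSn hSne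
      by_cases q1 : (S ∩ D).Nonempty ∧ S ∩ D ≠ D
      · obtain ⟨a, ha, b, hb, hbS, hab⟩ := inner1 (S ∩ D) inter_subset_right q1.1 q1.2
        rw [mem_inter] at ha hbS
        exact ⟨a, ha.1, b, hD hb, fun h => hbS ⟨h, hb⟩, (hR _ _).2 (Or.inl ⟨hab, ha.2, hb⟩)⟩
      by_cases q2 : (S ∩ (X \ D)).Nonempty ∧ S ∩ (X \ D) ≠ X \ D
      · obtain ⟨a, ha, b, hb, hbS, hab⟩ := inner2 (S ∩ (X \ D)) inter_subset_right q2.1 q2.2
        rw [mem_inter] at ha hbS
        exact ⟨a, ha.1, b, (mem_sdiff.1 hb).1, fun h => hbS ⟨h, hb⟩,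
          (hR _ _).2 (Or.inr (Or.inl ⟨hab, (mem_sdiff.1 ha.2).2, (mem_sdiff.1 hb).2⟩))⟩
      -- now `S` is `D` or its complement
      have hvX : v ∈ X \ D := mem_sdiff.2 ⟨hv, hvD⟩
      by_cases huS : u ∈ S
      · have hDS : S ∩ D = D := by
          by_contra hcon
          exact q1 ⟨⟨u, mem_inter.2 ⟨huS, hu⟩⟩, hcon⟩
        have hDS' : D ⊆ S := by rw [← hDS]; exact inter_subset_left
        have hvS : v ∉ S := by
          intro hvS
          have h3 : S ∩ (X \ D) = X \ D := by
            by_contra hcon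
            exact q2 ⟨⟨v, mem_inter.2 ⟨hvS, hvX⟩⟩, hcon⟩
          apply hSne
          apply subset_antisymm hS
          intro y hy
          by_cases hyD : y ∈ D
          · exact hDS' hyD
          · have : y ∈ S ∩ (X \ D) := by rw [h3]; exact mem_sdiff.2 ⟨hy, hyD⟩
            exact (mem_inter.1 this).1
        exact ⟨u, huS, v, hv, hvS, (hR _ _).2 (Or.inr (Or.inr (Or.inl ⟨rfl, rfl⟩)))⟩
      · by_cases hvS : v ∈ S
        · exact ⟨v, hvS, u, hD hu, huS, (hR _ _).2 (Or.inr (Or.inr (Or.inr ⟨rfl, rfl⟩)))⟩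
        · exfalso
          obtain ⟨y, hy⟩ := hSn
          by_cases hyD : y ∈ D
          · have h3 : S ∩ D = D := by
              by_contra hcon
              exact q1 ⟨⟨y, mem_inter.2 ⟨hy, hyD⟩⟩, hcon⟩
            have : u ∈ S ∩ D := by rw [h3]; exact hu
            exact huS (mem_inter.1 this).1
          · have h3 : S ∩ (X \ D) = X \ D := by
              by_contra hcon
              exact q2 ⟨⟨y, mem_inter.2 ⟨hy, mem_sdiff.2 ⟨hS hy, hyD⟩⟩⟩, hcon⟩
            have : v ∈ S ∩ (X \ D) := by rw [h3]; exact hvX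
            exact hvS (mem_inter.1 this).1
    · intro a
      by_cases haD : a ∈ D
      · have hav : a ≠ v := fun e => hvD (e ▸ haD)
        by_cases hau : a = u
        · calc _ ≤ (insert v (univ.filter (fun b => R1 u b))).card := by
                apply card_le_card
                intro b hb
                rw [mem_filter] at hb
                rw [mem_insert, mem_filter]
                rcases (hR _ _).1 hb.2 with h | h | h | h
                · right; rw [← hau]; exact ⟨mem_univ _, h.1⟩
                · exact absurd haD h.2.1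
                · left; exact h.2
                · exact absurd h.1 hav
            _ ≤ _ := card_insert_le _ _
            _ ≤ 3 := by omega
        · refine (card_le_card ?_).trans (h1.deg a)
          intro b hb
          rw [mem_filter] at hb ⊢
          rcases (hR _ _).1 hb.2 with h | h | h | h
          · exact ⟨mem_univ _, h.1⟩
          · exact absurd haD h.2.1
          · exact absurd h.1 hau
          · exact absurd h.1 hav
      · have hau : a ≠ u := fun e => haD (e ▸ hu)
        by_cases hav : a = v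
        · calc _ ≤ (insert u (univ.filter (fun b => R2 v b))).card := by
                apply card_le_card
                intro b hb
                rw [mem_filter] at hb
                rw [mem_insert, mem_filter]
                rcases (hR _ _).1 hb.2 with h | h | h | h
                · exact absurd h.2.1 haD
                · right; rw [← hav]; exact ⟨mem_univ _, h.1⟩
                · exact absurd h.1 hau
                · left; exact h.2
            _ ≤ _ := card_insert_le _ _
            _ ≤ 3 := by omega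
        · refine (card_le_card ?_).trans (h2.deg a)
          intro b hb
          rw [mem_filter] at hb ⊢
          rcases (hR _ _).1 hb.2 with h | h | h | h
          · exact absurd h.2.1 haD
          · exact ⟨mem_univ _, h.1⟩
          · exact absurd h.1 hau
          · exact absurd h.1 hav
  · rintro w (rfl | rfl) hwu hwv
    · have hsub : univ.filter (fun b => R w b) ⊆ (univ.filter (fun b => R1 w b)).erase p := by
        intro b hb
        rw [mem_filter] at hb
        rw [mem_erase, mem_filter]
        rcases (hR _ _).1 hb.2 with h | h | h | h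
        · exact ⟨fun e => hpD (e ▸ h.2.2), mem_univ _, h.1⟩
        · exact absurd hx h.2.1
        · exact absurd h.1 hwu
        · exact absurd h.1 hwv
      refine (card_le_card hsub).trans ?_
      rw [card_erase_of_mem (by rw [mem_filter]; exact ⟨mem_univ _, e1⟩)]
      have := h1.deg w
      omega
    · have hsub : univ.filter (fun b => R w b) ⊆ (univ.filter (fun b => R2 w b)).erase x := by
        intro b hb
        rw [mem_filter] at hb
        rw [mem_erase, mem_filter]
        rcases (hR _ _).1 hb.2 with h | h | h | h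
        · exact absurd h.2.1 hpD
        · exact ⟨fun e => h.2.2 (e ▸ hx), mem_univ _, h.1⟩
        · exact absurd h.1 hwu
        · exact absurd h.1 hwv
      refine (card_le_card hsub).trans ?_
      rw [card_erase_of_mem (by rw [mem_filter]; exact ⟨mem_univ _, h2.symm _ _ e2⟩)]
      have := h2.deg w
      omega

/-- The subgraph agrees with the tree at the cuts of the tree edges incident with `S`. -/
def Loc (X : Finset V) (r : V) (par : V → V) (S : Finset V) (R : V → V → Prop) : Prop :=
  ∀ y ∈ X, y ≠ r → (y ∈ S ∨ par y ∈ S) → ∀ a b, An X r par a y → ¬ An X r par b y → R a b →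
    a = y ∧ b = par y

/-- `u` can be made of degree at most two without changing the cuts at `S`. -/
def Free (Adj : V → V → Prop) (X : Finset V) (r : V) (par : V → V) (S : Finset V) (u : V) : Prop :=
  ∃ R, Good Adj X R ∧ (univ.filter (fun b => R u b)).card ≤ 2 ∧ Loc X r par S R

theorem Free.mono {Adj : V → V → Prop} {X : Finset V} {r : V} {par : V → V} {S S' : Finset V}
    {u : V} (hSS : S' ⊆ S) (h : Free Adj X r par S u) : Free Adj X r par S' u := by
  obtain ⟨R, h1, h2, h3⟩ := h
  exact ⟨R, h1, h2, fun y hy hyr hyS => h3 y hy hyr (hyS.imp (fun h => hSS h) (fun h => hSS h))⟩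

/-- The minimal set of blocking vertices. -/
theorem min_block {Adj : V → V → Prop} (symm : ∀ a b, Adj a b → Adj b a) {X : Finset V} {r : V}
    {par : V → V} {dp : V → ℕ}
    (ht : ∀ x ∈ X, x ≠ r → par x ∈ X ∧ dp (par x) < dp x)
    (hgood : Good Adj X (Tr X r par)) :
    ∃ S ⊆ X, (∀ s ∈ S, ¬ (univ.filter (fun b => Tr X r par s b)).card ≤ 2) ∧
      (∀ u ∈ X, u ∉ S → Free Adj X r par S u) ∧
      (∀ u ∈ X, u ∉ S → ∀ v ∈ X, v ∉ S → Adj u v → ∀ y ∈ X, y ≠ r → (y ∈ S ∨ par y ∈ S) →
        An X r par u y → An X r par v y) := by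
  obtain ⟨S, hS, hmin⟩ := exists_min_image
    (X.powerset.filter (fun S => (∀ s ∈ S, ¬ (univ.filter (fun b => Tr X r par s b)).card ≤ 2) ∧
      (∀ u ∈ X, u ∉ S → Free Adj X r par S u))) card
    ⟨X.filter (fun s => ¬ (univ.filter (fun b => Tr X r par s b)).card ≤ 2), by
      rw [mem_filter, mem_powerset]
      refine ⟨filter_subset _ _, fun s hs => (mem_filter.1 hs).2, ?_⟩
      intro u hu huS
      refine ⟨Tr X r par, hgood, ?_, ?_⟩
      · by_contra hcon
        exact huS (mem_filter.2 ⟨hu, hcon⟩)
      · intro y _ _ _ a b ha hb hab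
        exact tr_cross hab ha hb⟩
  rw [mem_filter, mem_powerset] at hS
  obtain ⟨hSX, hSd, hSf⟩ := hS
  refine ⟨S, hSX, hSd, hSf, ?_⟩
  intro u hu huS v hv hvS huv y0 hy0 hy0r hy0S huy
  by_contra hvy
  -- the separating vertices of `S`
  obtain ⟨S', hS'⟩ : ∃ S', S' = S.filter (fun w => ¬ ∃ y ∈ X, y ≠ r ∧ (w = y ∨ w = par y) ∧
      ¬ (An X r par u y ↔ An X r par v y)) := ⟨_, rfl⟩
  have hS'S : S' ⊆ S := by rw [hS']; exact filter_subset _ _
  have hlt : S'.card < S.card := by
    apply card_lt_card
    rw [ssubset_iff_of_subset hS'S]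
    rcases hy0S with h | h
    · refine ⟨y0, h, ?_⟩
      rw [hS', mem_filter]
      rintro ⟨-, h2⟩
      exact h2 ⟨y0, hy0, hy0r, Or.inl rfl, fun e => hvy (e.1 huy)⟩
    · refine ⟨par y0, h, ?_⟩
      rw [hS', mem_filter]
      rintro ⟨-, h2⟩
      exact h2 ⟨y0, hy0, hy0r, Or.inr rfl, fun e => hvy (e.1 huy)⟩
  -- the exchange for one separating vertex
  have exch : ∀ u v : V, u ∈ X → u ∉ S → v ∈ X → v ∉ S → Adj u v →
      (∀ y ∈ X, y ≠ r → (y ∈ S' ∨ par y ∈ S') → (An X r par u y ↔ An X r par v y)) →
      ∀ w ∈ S, ∀ y ∈ X, y ≠ r → (w = y ∨ w = par y) → An X r par u y → ¬ An X r par v y →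
      Free Adj X r par S' w := by
    intro u v hu huS hv hvS huv hsep w hw y hy hyr hwy huy hvy
    obtain ⟨R1, g1, d1, l1⟩ := hSf u hu huS
    obtain ⟨R2, g2, d2, l2⟩ := hSf v hv hvS
    have hyS : y ∈ S ∨ par y ∈ S := by
      rcases hwy with h | h
      · left; rw [← h]; exact hw
      · right; rw [← h]; exact hw
    obtain ⟨D, hD⟩ : ∃ D, D = univ.filter (fun z => An X r par z y) := ⟨_, rfl⟩
    have hmD : ∀ z, z ∈ D ↔ An X r par z y := by
      intro z
      rw [hD, mem_filter]
      simp
    obtain ⟨R, g, d, e⟩ := combine symm g1 g2 D (fun z hz => an_mem' ((hmD z).1 hz) hy) y (par y)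
      ((hmD y).2 (an_refl y)) (ht y hy hyr).1
      (fun h => par_not_an ht hy hyr ((hmD _).1 h))
      (fun a b ha hb hab => l1 y hy hyr hyS a b ((hmD a).1 ha) (fun h => hb ((hmD b).2 h)) hab)
      (fun a b ha hb hab => l2 y hy hyr hyS a b ((hmD a).1 ha) (fun h => hb ((hmD b).2 h)) hab)
      u v ((hmD u).2 huy) hv (fun h => hvy ((hmD v).1 h)) huv d1 d2
    refine ⟨R, g, d w hwy (fun e => huS (e ▸ hw)) (fun e => hvS (e ▸ hw)), ?_⟩
    intro z hz hzr hzS a b ha hb hab
    have hzS' : z ∈ S ∨ par z ∈ S := hzS.imp (fun h => hS'S h) (fun h => hS'S h)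
    have hs := hsep z hz hzr hzS
    rcases e a b hab with h | h | h | h
    · exact l1 z hz hzr hzS' a b ha hb h.1
    · exact l2 z hz hzr hzS' a b ha hb h.1
    · rw [h.1] at ha
      rw [h.2] at hb
      exact absurd (hs.1 ha) hb
    · rw [h.1] at ha
      rw [h.2] at hb
      exact absurd (hs.2 ha) hb
  have hsep : ∀ y ∈ X, y ≠ r → (y ∈ S' ∨ par y ∈ S') → (An X r par u y ↔ An X r par v y) := by
    intro y hy hyr hyS
    by_contra hcon
    rcases hyS with h | h
    · rw [hS', mem_filter] at h
      exact h.2 ⟨y, hy, hyr, Or.inl rfl, hcon⟩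
    · rw [hS', mem_filter] at h
      exact h.2 ⟨y, hy, hyr, Or.inr rfl, hcon⟩
  have hmem : S' ∈ X.powerset.filter (fun S =>
      (∀ s ∈ S, ¬ (univ.filter (fun b => Tr X r par s b)).card ≤ 2) ∧
      (∀ u ∈ X, u ∉ S → Free Adj X r par S u)) := by
    rw [mem_filter, mem_powerset]
    refine ⟨hS'S.trans hSX, fun s hs => hSd s (hS'S hs), ?_⟩
    intro t ht' htS'
    by_cases htS : t ∈ S
    · have : ∃ y ∈ X, y ≠ r ∧ (t = y ∨ t = par y) ∧ ¬ (An X r par u y ↔ An X r par v y) := by
        by_contra hcon
        apply htS'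
        rw [hS', mem_filter]
        exact ⟨htS, hcon⟩
      obtain ⟨y, hy, hyr, hty, hne⟩ := this
      by_cases huy' : An X r par u y
      · exact exch u v hu huS hv hvS huv hsep t htS y hy hyr hty huy' (fun h => hne ⟨fun _ => h,
          fun _ => huy'⟩)
      · have hvy' : An X r par v y := by
          by_contra hcon
          exact hne ⟨fun h => absurd h huy', fun h => absurd h hcon⟩
        exact exch v u hv hvS hu huS (symm _ _ huv) (fun y h1 h2 h3 => (hsep y h1 h2 h3).symm)
          t htS y hy hyr hty hvy' huy'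
    · exact (hSf t ht' htS).mono hS'S
  have := hmin S' hmem
  omega

/-- A connected subgraph is extended by a neighbour of a vertex of degree at most two. -/
theorem extend {Adj : V → V → Prop} (symm : ∀ a b, Adj a b → Adj b a) {X : Finset V}
    {R : V → V → Prop} (g : Good Adj X R) {u w : V} (hu : u ∈ X) (hw : w ∉ X) (huw : Adj u w)
    (hd : (univ.filter (fun b => R u b)).card ≤ 2) : ∃ R', Good Adj (insert w X) R' := by
  have hne : u ≠ w := fun e => hw (e ▸ hu)
  obtain ⟨R', hR⟩ : ∃ R' : V → V → Prop, ∀ a b, R' a b ↔ (R a b ∨ (a = u ∧ b = w) ∨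
      (a = w ∧ b = u)) := ⟨_, fun _ _ => Iff.rfl⟩
  refine ⟨R', ?_, ?_, ?_, ?_, ?_⟩
  · intro a b hab
    rw [hR] at hab ⊢
    rcases hab with h | h | h
    · exact Or.inl (g.symm _ _ h)
    · exact Or.inr (Or.inr ⟨h.2, h.1⟩)
    · exact Or.inr (Or.inl ⟨h.2, h.1⟩)
  · intro a b hab
    rw [hR] at hab
    rcases hab with h | h | h
    · exact g.sub _ _ h
    · rw [h.1, h.2]; exact huw
    · rw [h.1, h.2]; exact symm _ _ huw
  · intro a b hab
    rw [hR] at hab
    rcases hab with h | h | h
    · exact mem_insert_of_mem (g.mem _ _ h)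
    · rw [h.1]; exact mem_insert_of_mem hu
    · rw [h.1]; exact mem_insert_self _ _
  · intro S hS hSn hSne
    by_cases hwS : w ∈ S
    · by_cases huS : u ∈ S
      · have h1 : S.erase w ⊆ X := by
          intro y hy
          rw [mem_erase] at hy
          exact (mem_insert.1 (hS hy.2)).resolve_left hy.1
        obtain ⟨a, ha, b, hb, hbS, hab⟩ := g.conn (S.erase w) h1
          ⟨u, mem_erase.2 ⟨hne, huS⟩⟩ (by
            intro h
            apply hSne
            rw [← h, insert_erase hwS])
        refine ⟨a, (mem_erase.1 ha).2, b, mem_insert_of_mem hb, ?_, (hR _ _).2 (Or.inl hab)⟩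
        intro hcon
        exact hbS (mem_erase.2 ⟨fun e => hw (e ▸ hb), hcon⟩)
      · exact ⟨w, hwS, u, mem_insert_of_mem hu, huS, (hR _ _).2 (Or.inr (Or.inr ⟨rfl, rfl⟩))⟩
    · have h1 : S ⊆ X := by
        intro y hy
        exact (mem_insert.1 (hS hy)).resolve_left (fun e => hwS (e ▸ hy))
      by_cases hSX : S = X
      · exact ⟨u, hSX ▸ hu, w, mem_insert_self _ _, hwS, (hR _ _).2 (Or.inr (Or.inl ⟨rfl, rfl⟩))⟩
      · obtain ⟨a, ha, b, hb, hbS, hab⟩ := g.conn S h1 hSn hSX
        exact ⟨a, ha, b, mem_insert_of_mem hb, hbS, (hR _ _).2 (Or.inl hab)⟩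
  · intro a
    by_cases hau : a = u
    · calc _ ≤ (insert w (univ.filter (fun b => R u b))).card := by
            apply card_le_card
            intro b hb
            rw [mem_filter] at hb
            rw [mem_insert, mem_filter]
            rcases (hR _ _).1 hb.2 with h | h | h
            · right; rw [← hau]; exact ⟨mem_univ _, h⟩
            · left; exact h.2
            · exact absurd (hau.symm.trans h.1) hne
        _ ≤ _ := card_insert_le _ _
        _ ≤ 3 := by omega
    · by_cases haw : a = w
      · calc _ ≤ ({u} : Finset V).card := by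
              apply card_le_card
              intro b hb
              rw [mem_filter] at hb
              rw [mem_singleton]
              rcases (hR _ _).1 hb.2 with h | h | h
              · exact absurd (g.mem _ _ h) (haw ▸ hw)
              · exact absurd h.1 hau
              · exact h.2
          _ ≤ 3 := by rw [card_singleton]; omega
      · refine (card_le_card ?_).trans (g.deg a)
        intro b hb
        rw [mem_filter] at hb ⊢
        rcases (hR _ _).1 hb.2 with h | h | h
        · exact ⟨mem_univ _, h⟩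
        · exact absurd h.1 hau
        · exact absurd h.1 haw

/-- The first ancestor that is the root or a child of a vertex of `S`. -/
theorem exists_top {X : Finset V} {r : V} {par : V → V} {dp : V → ℕ}
    (ht : ∀ x ∈ X, x ≠ r → par x ∈ X ∧ dp (par x) < dp x) (S : Finset V) :
    ∀ (n : ℕ) (u : V), dp u = n → u ∈ X → ∃ t ∈ X, (t = r ∨ par t ∈ S) ∧ An X r par u t ∧
      ∀ t' ∈ X, (t' = r ∨ par t' ∈ S) → An X r par u t' → An X r par t t' := by
  intro n
  induction n using Nat.strong_induction_on with
  | _ n ih =>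
    intro u hn hu
    by_cases hc : u = r ∨ par u ∈ S
    · exact ⟨u, hu, hc, an_refl u, fun t' _ _ h => h⟩
    · have hur : u ≠ r := fun e => hc (Or.inl e)
      have hp := ht u hu hur
      obtain ⟨t, ht1, ht2, ht3, ht4⟩ := ih (dp (par u)) (by omega) (par u) rfl hp.1
      refine ⟨t, ht1, ht2, an_step hu hur ht3, ?_⟩
      intro t' ht' hc' hut'
      apply ht4 t' ht' hc'
      rcases an_head hut' with h | h
      · exact absurd (h ▸ hc') hc
      · exact h.2.2

/-- **Spanning trees of maximum degree at most three** in connected vertex-transitive graphs. -/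
theorem win3 [Nonempty V] (Adj : V → V → Prop) (symm : ∀ a b, Adj a b → Adj b a)
    (irr : ∀ a, ¬ Adj a a)
    (hconn : ∀ S : Set V, S.Nonempty → (∀ a ∈ S, ∀ b, Adj a b → b ∈ S) → S = Set.univ)
    (htrans : ∀ a b : V, ∃ g : Equiv.Perm V, g a = b ∧ ∀ x y, Adj x y ↔ Adj (g x) (g y)) :
    ∃ (r : V) (par : V → V) (dp : V → ℕ), (∀ x, x ≠ r → Adj x (par x) ∧ dp (par x) < dp x) ∧
      ∀ x, (univ.filter (fun y => y ≠ r ∧ par y = x)).card + (if x = r then 0 else 1) ≤ 3 := by
  obtain ⟨v0⟩ := (inferInstance : Nonempty V)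
  -- the degree
  obtain ⟨k, hk0⟩ : ∃ k, k = (univ.filter (fun b => Adj v0 b)).card := ⟨_, rfl⟩
  have hk : ∀ a, (univ.filter (fun b => Adj a b)).card = k := by
    intro a
    obtain ⟨g, hga, hg⟩ := htrans v0 a
    rw [hk0]
    symm
    apply card_bij (fun b _ => g b)
    · intro b hb
      rw [mem_filter] at hb ⊢
      refine ⟨mem_univ _, ?_⟩
      rw [← hga, ← hg]
      exact hb.2
    · intro b _ c _ h
      exact g.injective h
    · intro b hb
      rw [mem_filter] at hb
      refine ⟨g.symm b, ?_, by simp⟩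
      rw [mem_filter]
      refine ⟨mem_univ _, ?_⟩
      rw [hg, hga]
      simpa using hb.2
  -- the largest connected subgraph of maximum degree at most three
  obtain ⟨X, hX, hmax⟩ := exists_max_image
    (univ.filter (fun X : Finset V => X.Nonempty ∧ ∃ R, Good Adj X R)) card
    ⟨{v0}, by
      rw [mem_filter]
      refine ⟨mem_univ _, singleton_nonempty _, fun _ _ => False, ?_, ?_, ?_, ?_, ?_⟩
      · intro a b h; exact h.elim
      · intro a b h; exact h.elim
      · intro a b h; exact h.elim
      · intro S hS hSn hSne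
        exfalso
        rcases subset_singleton_iff.1 hS with h | h
        · rw [h] at hSn; exact not_nonempty_empty hSn
        · exact hSne h
      · intro a
        simp⟩
  rw [mem_filter] at hX
  obtain ⟨-, ⟨r, hr⟩, R, g⟩ := hX
  obtain ⟨par, dp, hpar⟩ := exists_tree g r hr
  by_cases hXu : X = univ
  · subst hXu
    refine ⟨r, par, dp, ?_, ?_⟩
    · intro x hxr
      obtain ⟨-, h2, h3⟩ := hpar x (mem_univ _) hxr
      exact ⟨symm _ _ (g.sub _ _ h2), h3⟩
    · intro x
      have hsub : univ.filter (fun y => y ≠ r ∧ par y = x) ⊆ univ.filter (fun b => R x b) := by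
        intro y hy
        rw [mem_filter] at hy ⊢
        obtain ⟨-, h2, h3⟩ := hpar y (mem_univ _) hy.2.1
        rw [hy.2.2] at h2
        exact ⟨mem_univ _, h2⟩
      by_cases hxr : x = r
      · rw [if_pos hxr]
        exact (card_le_card hsub).trans (g.deg x)
      · rw [if_neg hxr]
        obtain ⟨-, h2, h3⟩ := hpar x (mem_univ _) hxr
        have hnot : par x ∉ univ.filter (fun y => y ≠ r ∧ par y = x) := by
          rw [mem_filter]
          rintro ⟨-, h4, h5⟩
          have := (hpar (par x) (mem_univ _) h4).2.2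
          rw [h5] at this
          omega
        rw [← card_insert_of_notMem hnot]
        refine (card_le_card ?_).trans (g.deg x)
        apply insert_subset
        · rw [mem_filter]
          exact ⟨mem_univ _, g.symm _ _ h2⟩
        · exact hsub
  · exfalso
    have ht : ∀ x ∈ X, x ≠ r → par x ∈ X ∧ dp (par x) < dp x := fun x hx hxr =>
      ⟨(hpar x hx hxr).1, (hpar x hx hxr).2.2⟩
    have gT : Good Adj X (Tr X r par) := by
      have hTR : ∀ a b, Tr X r par a b → R a b := by
        rintro a b (⟨h1, h2, h3⟩ | ⟨h1, h2, h3⟩)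
        · rw [← h3]
          exact g.symm _ _ (hpar a h1 h2).2.1
        · rw [← h3]
          exact (hpar b h1 h2).2.1
      refine ⟨fun a b h => Or.symm h, fun a b h => g.sub _ _ (hTR a b h),
        fun a b h => g.mem _ _ (hTR a b h), tr_conn ht hr, fun a => ?_⟩
      refine (card_le_card ?_).trans (g.deg a)
      intro b hb
      rw [mem_filter] at hb ⊢
      exact ⟨mem_univ _, hTR a b hb.2⟩
    obtain ⟨S, hSX, hSd, hSf, hSep⟩ := min_block symm ht gT
    have hout : ∀ u ∈ X, u ∉ S → ∀ w, w ∉ X → ¬ Adj u w := by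
      intro u hu huS w hw huw
      obtain ⟨R', g', d', -⟩ := hSf u hu huS
      obtain ⟨R'', g''⟩ := extend symm g' hu hw huw d'
      have := hmax (insert w X) (by
        rw [mem_filter]
        exact ⟨mem_univ _, insert_nonempty _ _, R'', g''⟩)
      rw [card_insert_of_notMem hw] at this
      omega
    have hchild : ∀ s ∈ S, 2 ≤ (X.filter (fun x => x ≠ r ∧ par x = s)).card := by
      intro s hs
      have h1 := hSd s hs
      have h2 : univ.filter (fun b => Tr X r par s b) ⊆
          insert (par s) (X.filter (fun x => x ≠ r ∧ par x = s)) := by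
        intro b hb
        rw [mem_filter] at hb
        rw [mem_insert, mem_filter]
        rcases hb.2 with h | h
        · left; exact h.2.2.symm
        · right; exact ⟨h.1, h.2.1, h.2.2⟩
      have h3 := (card_le_card h2).trans (card_insert_le _ _)
      omega
    obtain ⟨C, hC⟩ : ∃ C, C = X.filter (fun x => x ≠ r ∧ par x ∈ S) := ⟨_, rfl⟩
    have hCcard : 2 * S.card ≤ C.card := by
      rw [card_eq_sum_card_fiberwise (f := par) (t := S) (s := C)]
      · rw [mul_comm, ← smul_eq_mul]
        apply card_nsmul_le_sum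
        intro s hs
        refine (hchild s hs).trans (card_le_card ?_)
        intro x hx
        rw [mem_filter] at hx
        rw [mem_filter, hC, mem_filter]
        exact ⟨⟨hx.1, hx.2.1, by rw [hx.2.2]; exact hs⟩, hx.2.2⟩
      · intro x hx
        rw [mem_coe, hC, mem_filter] at hx
        exact hx.2.2
    obtain ⟨tops, htops⟩ : ∃ tops, tops = (insert r C) \ S := ⟨_, rfl⟩
    have htc : S.card + 1 ≤ tops.card := by
      have h1 := le_card_sdiff S (insert r C)
      have h2 : r ∉ C := by
        rw [hC, mem_filter]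
        rintro ⟨-, h, -⟩
        exact h rfl
      rw [card_insert_of_notMem h2, ← htops] at h1
      omega
    have htmem : ∀ z ∈ tops, z ∈ X ∧ z ∉ S ∧ (z = r ∨ par z ∈ S) := by
      intro z hz
      rw [htops, mem_sdiff, mem_insert, hC, mem_filter] at hz
      rcases hz.1 with h | h
      · exact ⟨h ▸ hr, hz.2, Or.inl h⟩
      · exact ⟨h.1, hz.2, Or.inr h.2.2⟩
    have hex := fun (u : V) (hu : u ∈ X) => exists_top ht S (dp u) u rfl hu
    obtain ⟨top, htop⟩ : ∃ top : V → V, ∀ u ∈ X, top u ∈ X ∧ (top u = r ∨ par (top u) ∈ S) ∧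
        An X r par u (top u) ∧
        ∀ t' ∈ X, (t' = r ∨ par t' ∈ S) → An X r par u t' → An X r par (top u) t' := by
      have : ∀ u, ∃ t, u ∈ X → t ∈ X ∧ (t = r ∨ par t ∈ S) ∧ An X r par u t ∧
        ∀ t' ∈ X, (t' = r ∨ par t' ∈ S) → An X r par u t' → An X r par t t' := by
        intro u
        by_cases hu : u ∈ X
        · obtain ⟨t, h1, h2, h3, h4⟩ := hex u hu
          exact ⟨t, fun _ => ⟨h1, h2, h3, h4⟩⟩
        · exact ⟨u, fun h => absurd h hu⟩
      choose top htop using this
      exact ⟨top, htop⟩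
    have htt : ∀ z ∈ tops, top z = z := by
      intro z hz
      obtain ⟨h1, h2, h3⟩ := htmem z hz
      obtain ⟨t1, t2, t3, t4⟩ := htop z h1
      exact an_antisymm ht (t4 z h1 h3 (an_refl z)) t3
    have hedge : ∀ u ∈ X, u ∉ S → ∀ v ∈ X, v ∉ S → Adj u v → top u = top v := by
      have half : ∀ u ∈ X, u ∉ S → ∀ v ∈ X, v ∉ S → Adj u v → An X r par (top v) (top u) := by
        intro u hu huS v hv hvS huv
        obtain ⟨t1, t2, t3, t4⟩ := htop u hu
        obtain ⟨s1, s2, s3, s4⟩ := htop v hv
        apply s4 (top u) t1 t2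
        by_cases htr : top u = r
        · rw [htr]
          exact an_root ht (dp v) v rfl hv
        · exact hSep u hu huS v hv hvS huv (top u) t1 htr (Or.inr (t2.resolve_left htr)) t3
      intro u hu huS v hv hvS huv
      exact an_antisymm ht (half v hv hvS u hu huS (symm _ _ huv)) (half u hu huS v hv hvS huv)
    -- counting the edges at `S`
    obtain ⟨E, hE⟩ : ∃ E, E = univ.filter (fun p : V × V => p.2 ∈ S ∧ Adj p.1 p.2) := ⟨_, rfl⟩
    have hEc : E.card ≤ S.card * k := by
      rw [card_eq_sum_card_fiberwise (f := fun p : V × V => p.2) (t := S) (s := E)]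
      · rw [← smul_eq_mul]
        apply sum_le_card_nsmul
        intro b hb
        rw [← hk b]
        apply card_le_card_of_injOn (fun p => p.1)
        · intro p hp
          rw [mem_coe, mem_filter, hE, mem_filter] at hp
          rw [mem_coe, mem_filter]
          refine ⟨mem_univ _, ?_⟩
          rw [← hp.2]
          exact symm _ _ hp.1.2.2
        · intro p hp q hq hpq
          rw [mem_coe, mem_filter] at hp hq
          exact Prod.ext hpq (hp.2.trans hq.2.symm)
      · intro p hp
        rw [mem_coe, hE, mem_filter] at hp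
        exact hp.2.1
    obtain ⟨E', hE'⟩ : ∃ E', E' = E.filter (fun p => top p.1 ∈ tops) := ⟨_, rfl⟩
    have hlow : tops.card * k ≤ E'.card := by
      rw [card_eq_sum_card_fiberwise (f := fun p : V × V => top p.1) (t := tops) (s := E')]
      · rw [← smul_eq_mul]
        apply card_nsmul_le_sum
        intro z hz
        obtain ⟨h1, h2, h3⟩ := htmem z hz
        obtain ⟨F, hF⟩ : ∃ F, F = X.filter (fun u => u ∉ S ∧ top u = z) := ⟨_, rfl⟩
        have hFn : F.Nonempty := ⟨z, by
          rw [hF, mem_filter]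
          exact ⟨h1, h2, htt z hz⟩⟩
        have hFu : F ≠ univ := by
          intro h
          apply hXu
          apply eq_univ_of_forall
          intro y
          have : y ∈ F := by rw [h]; exact mem_univ _
          rw [hF, mem_filter] at this
          exact this.1
        refine (mader Adj symm irr hconn htrans k hk F hFn hFu).trans ?_
        unfold bd
        apply card_le_card
        intro p hp
        rw [mem_filter] at hp
        obtain ⟨-, hp1, hp2, hp3⟩ := hp
        rw [hF, mem_filter] at hp1 hp2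
        have hpX : p.2 ∈ X := by
          by_contra hcon
          exact hout p.1 hp1.1 hp1.2.1 p.2 hcon hp3
        have hpS : p.2 ∈ S := by
          by_contra hcon
          apply hp2
          refine ⟨hpX, hcon, ?_⟩
          rw [← hp1.2.2]
          exact (hedge p.1 hp1.1 hp1.2.1 p.2 hpX hcon hp3).symm
        rw [mem_filter, hE', mem_filter, hE, mem_filter]
        exact ⟨⟨⟨mem_univ _, hpS, hp3⟩, by rw [hp1.2.2]; exact hz⟩, hp1.2.2⟩
      · intro p hp
        rw [mem_coe, hE', mem_filter] at hp
        exact hp.2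
    have hEE : E'.card ≤ E.card := by
      rw [hE']
      exact card_filter_le _ _
    have hkpos : 1 ≤ k := by
      by_contra hcon
      have hk' : k = 0 := by omega
      have := hconn (↑X : Set V) ⟨r, by simpa using hr⟩ (by
        intro a _ b hab
        exfalso
        have h1 := hk a
        rw [hk', card_eq_zero, filter_eq_empty_iff] at h1
        exact h1 (mem_univ b) hab)
      apply hXu
      rw [← coe_univ] at this
      exact_mod_cast this
    nlinarith

end Pool.Agent.H65T.NC.Win
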