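import Mathlib
import Pool.Agent.H65T.NC.Lift
import Pool.Agent.H65T.NC.Win
import Pool.Agent.H65T.NC.Path

set_option autoImplicit false

/-!
# Hamiltonian cycles from a subgroup that normalises generators: the theorem
-/

namespace Pool.Agent.H65T.NC

open Finset
open scoped commutatorElement

universe u

theorem HC.mono {G : Type u} [Group G] {A B : Set G} (h : HC G A) (hAB : A ⊆ B) : HC G B := by
  obtain ⟨σ, h1, h2⟩ := h
  exact ⟨σ, fun x => hAB (h1 x), h2⟩

theorem HC.transport {G G' : Type u} [Group G] [Group G'] (e : G ≃* G') {A : Set G} {B : Set G'}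
    (h : HC G A) (hAB : ∀ a ∈ A, e a ∈ B) : HC G' B := by
  obtain ⟨σ, h1, h2⟩ := h
  refine ⟨(e.symm.toEquiv.trans σ).trans e.toEquiv, ?_, ?_⟩
  · intro x
    have h3 := hAB _ (h1 (e.symm x))
    rw [map_mul, map_inv, MulEquiv.apply_symm_apply] at h3
    exact h3
  · rintro S ⟨x, hx⟩ hS
    have h3 := h2 (e ⁻¹' S) ⟨e.symm x, by
      rw [Set.mem_preimage, MulEquiv.apply_symm_apply]
      exact hx⟩ (by
      intro y hy
      have := hS (e y) hy
      have h4 : ((e.symm.toEquiv.trans σ).trans e.toEquiv) (e y) = e (σ y) := by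
        simp
      rw [h4] at this
      exact this)
    rw [Set.eq_univ_iff_forall] at h3 ⊢
    intro y
    have := h3 (e.symm y)
    rw [Set.mem_preimage, MulEquiv.apply_symm_apply] at this
    exact this

open Classical in
/-- **Lifting theorem.** -/
theorem lift_hc {G : Type u} [Group G] [Finite G] {A : Set G} (hinv : ∀ a ∈ A, a⁻¹ ∈ A)
    (H : Subgroup G) (h3 : 3 ≤ Nat.card H) (hH : HC H {h : H | (h : G) ∈ A})
    (hgen : Subgroup.closure ((H : Set G) ∪ {s ∈ A | ∀ h ∈ H, h * s * h⁻¹ ∈ A}) = ⊤) :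
    HC G A := by
  have : Fintype G := Fintype.ofFinite G
  have : Fintype H := Fintype.ofFinite H
  have : Fintype (G ⧸ H) := Fintype.ofFinite _
  obtain ⟨τ, hτ1, hτ2⟩ := hH
  have hLc : 3 ≤ Fintype.card H := by rwa [Nat.card_eq_fintype_card] at h3
  have hsymm : ∀ K K' : G ⧸ H, CAdj A H K K' → CAdj A H K' K := by
    rintro K K' ⟨hne, x, s, hx, hs, hc⟩
    refine ⟨hne.symm, x * s, s⁻¹, hs, by rw [mul_inv_cancel_right]; exact hx, fun h => ?_⟩
    have e : (h : G)⁻¹ * s⁻¹ * h = ((h : G)⁻¹ * s * h)⁻¹ := by group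
    rw [e]
    exact hinv _ (hc h)
  have hT : ∀ s ∈ A, (∀ h ∈ H, h * s * h⁻¹ ∈ A) → ∀ x : G,
      ((x * s : G) : G ⧸ H) = x ∨ CAdj A H x ((x * s : G) : G ⧸ H) := by
    intro s _ hsc x
    by_cases hc : ((x * s : G) : G ⧸ H) = x
    · exact Or.inl hc
    · right
      refine ⟨fun h => hc h.symm, x, s, rfl, rfl, fun h => ?_⟩
      have := hsc (h : G)⁻¹ (H.inv_mem h.2)
      rwa [inv_inv] at this
  obtain ⟨r, par, dp, hpar, hdeg⟩ := Win.win3 (CAdj A H) hsymm (fun K h => h.1 rfl) (by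
      rintro S ⟨K, hK⟩ hS
      obtain ⟨x0, rfl⟩ := QuotientGroup.mk_surjective K
      have key : ∀ g ∈ Subgroup.closure ((H : Set G) ∪ {s ∈ A | ∀ h ∈ H, h * s * h⁻¹ ∈ A}),
          ((x0 * g : G) : G ⧸ H) ∈ S := by
        intro g hg
        induction hg using Subgroup.closure_induction_right with
        | one => rw [mul_one]; exact hK
        | mul_right x hx y hy ih =>
          rw [← mul_assoc]
          rcases hy with hy | hy
          · rw [QuotientGroup.mk_mul_of_mem _ hy]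
            exact ih
          · rcases hT y hy.1 hy.2 (x0 * x) with h | h
            · rw [h]; exact ih
            · exact hS _ ih _ h
        | mul_inv_cancel x hx y hy ih =>
          rw [← mul_assoc]
          rcases hy with hy | hy
          · rw [QuotientGroup.mk_mul_of_mem _ (H.inv_mem hy)]
            exact ih
          · rcases hT y⁻¹ (hinv y hy.1) (fun h hh => by
                have e : h * y⁻¹ * h⁻¹ = (h * y * h⁻¹)⁻¹ := by group
                rw [e]
                exact hinv _ (hy.2 h hh)) (x0 * x) with h | h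
            · rw [h]; exact ih
            · exact hS _ ih _ h
      rw [Set.eq_univ_iff_forall]
      intro K
      obtain ⟨y, rfl⟩ := QuotientGroup.mk_surjective K
      have := key (x0⁻¹ * y) (by rw [hgen]; trivial)
      rwa [mul_inv_cancel_left] at this) (by
      intro K K'
      obtain ⟨x, rfl⟩ := QuotientGroup.mk_surjective K
      obtain ⟨y, rfl⟩ := QuotientGroup.mk_surjective K'
      have hadj : ∀ (g : G) (K K' : G ⧸ H), CAdj A H K K' → CAdj A H (g • K) (g • K') := by
        rintro g K K' ⟨hne, x, s, hx, hs, hc⟩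
        refine ⟨fun h => hne (smul_left_cancel g h), g * x, s, ?_, ?_, hc⟩
        · rw [← hx]; rfl
        · rw [← hs, mul_assoc]; rfl
      refine ⟨MulAction.toPerm (y * x⁻¹), ?_, ?_⟩
      · show (y * x⁻¹) • ((x : G) : G ⧸ H) = y
        have e : (y * x⁻¹) • ((x : G) : G ⧸ H) = (((y * x⁻¹) * x : G) : G ⧸ H) := rfl
        rw [e, inv_mul_cancel_right]
      · intro K K'
        constructor
        · exact hadj _ K K'
        · intro h
          have h1 : CAdj A H ((y * x⁻¹)⁻¹ • ((y * x⁻¹) • K)) ((y * x⁻¹)⁻¹ • ((y * x⁻¹) • K')) :=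
            hadj (y * x⁻¹)⁻¹ _ _ h
          rwa [inv_smul_smul, inv_smul_smul] at h1)
  obtain ⟨n', σ, fr, s1, s2, s3, s4, s5⟩ := along_tree hinv hτ1 hτ2 hLc r par dp hpar
    (by intro x; convert hdeg x)
  refine hc_of_fun σ (fun x => (s2 x (mem_univ _)).2)
    (fun x y hxy => s3 x y (mem_univ _) (mem_univ _) hxy) ?_
  rintro S ⟨x, hx⟩ hS
  rw [Set.eq_univ_iff_forall]
  intro y
  exact s4 S ⟨x, hx, mem_univ _⟩ (fun x hx _ => hS x hx) y (mem_univ _)

/-- A subgroup generated by elements whose conjugates stay in the generating set. -/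
theorem hp_or_hc_sub {G : Type u} [Group G] [Finite G] {A : Set G} (hinv : ∀ a ∈ A, a⁻¹ ∈ A)
    (H : Subgroup G) (hH : H ≤ Subgroup.closure {s ∈ A | s ∈ H ∧ ∀ h ∈ H, h * s * h⁻¹ ∈ A}) :
    HP H {h : H | (h : G) ∈ A} ∧ (2 ≤ Nat.card H → HC H {h : H | (h : G) ∈ A}) := by
  obtain ⟨B, hB⟩ : ∃ B, B = {s ∈ A | s ∈ H ∧ ∀ h ∈ H, h * s * h⁻¹ ∈ A} := ⟨_, rfl⟩
  rw [← hB] at hH
  have hBH : B ∩ H = B := by
    apply Set.inter_eq_left.2
    rw [hB]
    exact fun s hs => hs.2.1
  have hcl : Subgroup.closure (B ∩ H) = H := by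
    rw [hBH]
    apply le_antisymm _ hH
    rw [Subgroup.closure_le, hB]
    exact fun s hs => hs.2.1
  have hgen := closure_sub B H hcl
  have c1 : ∀ a ∈ {h : H | (h : G) ∈ B}, ∀ g : H, g * a * g⁻¹ ∈ {h : H | (h : G) ∈ B} := by
    intro a ha g
    rw [Set.mem_ofPred_eq, hB] at ha ⊢
    refine ⟨ha.2.2 g g.2, (g * a * g⁻¹).2, fun h hh => ?_⟩
    have e : h * ((g * a * g⁻¹ : H) : G) * h⁻¹ = (h * g) * a * (h * g)⁻¹ := by
      push_cast
      group
    rw [e]
    exact ha.2.2 _ (H.mul_mem hh g.2)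
  have c2 : ∀ a ∈ {h : H | (h : G) ∈ B}, a⁻¹ ∈ {h : H | (h : G) ∈ B} := by
    intro a ha
    rw [Set.mem_ofPred_eq, hB] at ha ⊢
    refine ⟨hinv _ ha.1, (a⁻¹).2, fun h hh => ?_⟩
    have e : h * ((a⁻¹ : H) : G) * h⁻¹ = (h * a * h⁻¹)⁻¹ := by
      push_cast
      group
    rw [e]
    exact hinv _ (ha.2.2 h hh)
  have hsub : {h : H | (h : G) ∈ B} ⊆ {h : H | (h : G) ∈ A} := by
    intro h hh
    rw [Set.mem_ofPred_eq, hB] at hh
    exact hh.1
  constructor
  · obtain ⟨p, hp1, hp2⟩ := hp_all c1 c2 hgen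
    exact ⟨p, hp1, fun i hi => hsub (hp2 i hi)⟩
  · intro h2
    have : Fintype H := Fintype.ofFinite H
    exact (hc_main _ H {h : H | (h : G) ∈ B} rfl (by rwa [← Nat.card_eq_fintype_card])
      c1 c2 hgen).mono hsub

/-- Extension by an abelian quotient. -/
theorem hp_comm {G : Type u} [Group G] [Finite G] {A : Set G} (hinv : ∀ a ∈ A, a⁻¹ ∈ A)
    (hgen : Subgroup.closure A = ⊤) (N : Subgroup G) (hcomm : commutator G ≤ N)
    (h1 : HP N {h : N | (h : G) ∈ A}) : HP G A := by
  have hNn : N.Normal := by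
    constructor
    intro n hn g
    have h1 : ⁅g, n⁆ ∈ N :=
      hcomm (Subgroup.commutator_mem_commutator (Subgroup.mem_top _) (Subgroup.mem_top _))
    have h2 := N.mul_mem h1 hn
    rwa [commutatorElement_def, inv_mul_cancel_right] at h2
  have hcq : ∀ x y : G ⧸ N, x * y = y * x := by
    intro x y
    obtain ⟨x, rfl⟩ := QuotientGroup.mk_surjective x
    obtain ⟨y, rfl⟩ := QuotientGroup.mk_surjective y
    rw [← QuotientGroup.mk_mul, ← QuotientGroup.mk_mul, eq_comm, QuotientGroup.eq]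
    have h2 : ⁅x⁻¹, y⁻¹⁆ ∈ N :=
      hcomm (Subgroup.commutator_mem_commutator (Subgroup.mem_top _) (Subgroup.mem_top _))
    rw [commutatorElement_def] at h2
    have e : (y * x)⁻¹ * (x * y) = x⁻¹ * y⁻¹ * x⁻¹⁻¹ * y⁻¹⁻¹ := by group
    rw [e]
    exact h2
  refine hp_extend N h1 (hp_all ?_ ?_ ?_)
  · intro a ha g
    rw [hcq g a, mul_inv_cancel_right]
    exact ha
  · rintro _ ⟨a, ha, rfl⟩
    exact ⟨a⁻¹, hinv a ha, rfl⟩
  · have h3 : Subgroup.closure (QuotientGroup.mk' N '' A) = ⊤ := by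
      rw [← MonoidHom.map_closure, hgen]
      exact Subgroup.map_top_of_surjective _ (QuotientGroup.mk'_surjective N)
    exact h3

/-- The lifting theorem inside the subgroup generated by `H` and the good generators. -/
theorem lift_sub {G : Type u} [Group G] [Finite G] {A : Set G} (hinv : ∀ a ∈ A, a⁻¹ ∈ A)
    (H : Subgroup G) (h3 : 3 ≤ Nat.card H) (hH : HC H {h : H | (h : G) ∈ A}) (K : Subgroup G)
    (hK : K = Subgroup.closure ((H : Set G) ∪ {s ∈ A | ∀ h ∈ H, h * s * h⁻¹ ∈ A})) :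
    HC K {k : K | (k : G) ∈ A} := by
  have hHK : H ≤ K := by
    rw [hK]
    exact fun x hx => Subgroup.subset_closure (Or.inl hx)
  obtain ⟨e⟩ : Nonempty (H ≃* H.subgroupOf K) := ⟨(Subgroup.subgroupOfEquivOfLe hHK).symm⟩
  have he : ∀ x : H, (((Subgroup.subgroupOfEquivOfLe hHK).symm x : K) : G) = x := by
    intro x
    have := Subgroup.subgroupOfEquivOfLe_symm_apply_coe_coe hHK x
    exact this
  refine lift_hc (A := {k : K | (k : G) ∈ A}) (fun a ha => hinv _ ha) (H.subgroupOf K) ?_ ?_ ?_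
  · rwa [← Nat.card_congr e.toEquiv]
  · refine hH.transport (Subgroup.subgroupOfEquivOfLe hHK).symm ?_
    intro a ha
    show ((((Subgroup.subgroupOfEquivOfLe hHK).symm a : H.subgroupOf K) : K) : G) ∈ A
    rw [he]
    exact ha
  · apply Subgroup.map_injective K.subtype_injective
    rw [MonoidHom.map_closure, ← MonoidHom.range_eq_map, Subgroup.range_subtype]
    conv_rhs => rw [hK]
    congr 1
    ext x
    constructor
    · rintro ⟨k, hk | hk, rfl⟩
      · exact Or.inl hk
      · refine Or.inr ⟨hk.1, fun h hh => ?_⟩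
        exact hk.2 ⟨h, hHK hh⟩ hh
    · rintro (hx | hx)
      · exact ⟨⟨x, hHK hx⟩, Or.inl hx, rfl⟩
      · have hxK : x ∈ K := by
          rw [hK]
          exact Subgroup.subset_closure (Or.inr hx)
        refine ⟨⟨x, hxK⟩, Or.inr ⟨hx.1, fun h hh => ?_⟩, rfl⟩
        exact hx.2 (h : G) hh

/-- From a Hamiltonian cycle to a closed listing sequence. -/
theorem listing_closed {G : Type u} [Group G] [Finite G] {A : Set G} (h : HC G A) :
    ∃ a : Fin (Nat.card G) → G, (∀ i, a i ∈ A) ∧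
      Function.Injective (fun k : Fin (Nat.card G) => Fin.partialProd a k.succ) ∧
      Fin.partialProd a (Fin.last (Nat.card G)) = 1 := by
  have : Fintype G := Fintype.ofFinite G
  obtain ⟨σ, h1, h2⟩ := h
  obtain ⟨h3, h4⟩ := orbit_all (σ : G → G) σ.injective h2 (1 : G)
  rw [← Nat.card_eq_fintype_card] at h3 h4
  have hpos : 0 < Nat.card G := Nat.card_pos
  obtain ⟨n, hn⟩ : ∃ n, n = Nat.card G := ⟨_, rfl⟩
  rw [← hn] at h3 h4 hpos ⊢
  obtain ⟨a, ha⟩ : ∃ a : Fin n → G, a = fun i : Fin n =>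
    ((σ : G → G)^[(i : ℕ)] 1)⁻¹ * (σ : G → G)^[(i : ℕ) + 1] 1 := ⟨_, rfl⟩
  have key : ∀ (k : ℕ) (hk : k < n), Fin.partialProd a (Fin.succ ⟨k, hk⟩) =
      (σ : G → G)^[k + 1] 1 := by
    intro k
    induction k with
    | zero =>
      intro hk
      rw [Fin.partialProd_succ]
      have e : Fin.castSucc (⟨0, hk⟩ : Fin n) = 0 := rfl
      rw [e, Fin.partialProd_zero, ha]
      simp
    | succ k ih =>
      intro hk
      rw [Fin.partialProd_succ]
      have e : Fin.castSucc (⟨k + 1, hk⟩ : Fin n) = Fin.succ ⟨k, by omega⟩ := rfl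
      rw [e, ih (by omega), ha, mul_inv_cancel_left]
  have hclosed : (σ : G → G)^[n] 1 = 1 := by
    obtain ⟨j, hj, hjn⟩ := h4 ((σ : G → G)^[n] 1)
    cases j with
    | zero => exact hjn.symm
    | succ j =>
      exfalso
      have e1 : (σ : G → G)^[n] 1 = σ ((σ : G → G)^[n - 1] 1) := by
        rw [← Function.iterate_succ_apply' (σ : G → G)]
        congr 1
        omega
      rw [e1, Function.iterate_succ_apply'] at hjn
      have h5 := h3 (Set.mem_Iio.2 (show j < n by omega)) (Set.mem_Iio.2 (show n - 1 < n by omega))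
        (σ.injective hjn)
      omega
  refine ⟨a, ?_, ?_, ?_⟩
  · intro i
    rw [ha]
    show ((σ : G → G)^[(i : ℕ)] 1)⁻¹ * (σ : G → G)^[(i : ℕ) + 1] 1 ∈ A
    rw [Function.iterate_succ_apply']
    exact h1 _
  · intro k k' hkk
    simp only at hkk
    rw [show k = ⟨(k : ℕ), k.2⟩ from rfl, show k' = ⟨(k' : ℕ), k'.2⟩ from rfl, key, key,
      Function.iterate_succ_apply', Function.iterate_succ_apply'] at hkk
    exact Fin.ext (h3 (Set.mem_Iio.2 k.2) (Set.mem_Iio.2 k'.2) (σ.injective hkk))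
  · have e : Fin.last n = Fin.succ ⟨n - 1, by omega⟩ := by
      ext
      simp
      omega
    rw [e, key]
    have : n - 1 + 1 = n := by omega
    rw [this]
    exact hclosed

/-- From a closed listing sequence of a subgroup to a Hamiltonian cycle. -/
theorem hc_of_listing {G : Type u} [Group G] [Finite G] {A : Set G} (H : Subgroup G)
    (b : Fin (Nat.card H) → G) (hb : ∀ i, b i ∈ A ∧ b i ∈ H)
    (hinj : Function.Injective (fun k : Fin (Nat.card H) => Fin.partialProd b k.succ))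
    (hlast : Fin.partialProd b (Fin.last (Nat.card H)) = 1) : HC H {h : H | (h : G) ∈ A} := by
  obtain ⟨n, hn⟩ : ∃ n, n = Nat.card H := ⟨_, rfl⟩
  have hpos : 0 < Nat.card H := Nat.card_pos
  rw [← hn] at hpos
  -- a sequence indexed by `ℕ`
  obtain ⟨c, hc⟩ : ∃ c : ℕ → H, ∀ (i : ℕ) (hi : i < n), (c i : G) = b ⟨i, by omega⟩ := by
    refine ⟨fun i => if hi : i < n then ⟨b ⟨i, by omega⟩, (hb _).2⟩ else 1, ?_⟩
    intro i hi
    simp only [dif_pos hi]
  obtain ⟨P, hP0, hPs⟩ : ∃ P : ℕ → H, P 0 = 1 ∧ ∀ i, P (i + 1) = P i * c i :=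
    ⟨fun i => Nat.rec 1 (fun i x => x * c i) i, rfl, fun _ => rfl⟩
  have key : ∀ (k : ℕ) (hk : k < n), Fin.partialProd b (Fin.succ ⟨k, by omega⟩) = P (k + 1) := by
    intro k
    induction k with
    | zero =>
      intro hk
      rw [Fin.partialProd_succ]
      have e : Fin.castSucc (⟨0, by omega⟩ : Fin (Nat.card H)) = 0 := rfl
      rw [e, Fin.partialProd_zero, hPs, hP0, one_mul, one_mul, hc 0 hk]
    | succ k ih =>
      intro hk
      rw [Fin.partialProd_succ]
      have e : Fin.castSucc (⟨k + 1, by omega⟩ : Fin (Nat.card H)) = Fin.succ ⟨k, by omega⟩ := rfl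
      rw [e, ih (by omega), hPs (k + 1)]
      push_cast
      rw [hc (k + 1) hk]
  have hPn : P n = 1 := by
    have e : Fin.last (Nat.card H) = Fin.succ ⟨n - 1, by omega⟩ := by
      ext
      simp
      omega
    rw [e, key (n - 1) (by omega)] at hlast
    have h5 : n - 1 + 1 = n := by omega
    rw [h5] at hlast
    exact_mod_cast hlast
  have hPinj : Set.InjOn (fun k => P (k + 1)) (Set.Iio n) := by
    intro k hk k' hk' hkk
    rw [Set.mem_Iio] at hk hk'
    have h5 := @hinj ⟨k, by omega⟩ ⟨k', by omega⟩ (by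
      show Fin.partialProd b (Fin.succ ⟨k, _⟩) = Fin.partialProd b (Fin.succ ⟨k', _⟩)
      rw [key k hk, key k' hk']
      exact congrArg Subtype.val hkk)
    exact congrArg Fin.val h5
  have hsurj : ∀ y : H, ∃ k, k < n ∧ P (k + 1) = y := by
    classical
    have : Fintype H := Fintype.ofFinite H
    intro y
    have h5 : (range n).image (fun k => P (k + 1)) = univ := by
      apply eq_univ_of_card
      rw [card_image_of_injOn (by simpa using hPinj), card_range, hn, Nat.card_eq_fintype_card]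
    have h6 : y ∈ (range n).image (fun k => P (k + 1)) := by rw [h5]; exact mem_univ _
    rw [mem_image] at h6
    obtain ⟨k, hk, hky⟩ := h6
    exact ⟨k, mem_range.1 hk, hky⟩
  -- shift the index: positions `0 ≤ k < n`
  have hinj0 : Set.InjOn P (Set.Iio n) := by
    have aux : ∀ k, k < n → P k = P (if k = 0 then n else k) := by
      intro k _
      by_cases hk0 : k = 0
      · rw [if_pos hk0, hk0, hP0, hPn]
      · rw [if_neg hk0]
    intro k hk k' hk' hkk
    rw [Set.mem_Iio] at hk hk'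
    rw [aux k hk, aux k' hk'] at hkk
    by_cases hk0 : k = 0 <;> by_cases hk0' : k' = 0
    · omega
    · rw [if_pos hk0, if_neg hk0'] at hkk
      have h5 := @hPinj (n - 1) (Set.mem_Iio.2 (by omega)) (k' - 1) (Set.mem_Iio.2 (by omega)) (by
        show P (n - 1 + 1) = P (k' - 1 + 1)
        have e1 : n - 1 + 1 = n := by omega
        have e2 : k' - 1 + 1 = k' := by omega
        rw [e1, e2]; exact hkk)
      omega
    · rw [if_neg hk0, if_pos hk0'] at hkk
      have h5 := @hPinj (n - 1) (Set.mem_Iio.2 (by omega)) (k - 1) (Set.mem_Iio.2 (by omega)) (by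
        show P (n - 1 + 1) = P (k - 1 + 1)
        have e1 : n - 1 + 1 = n := by omega
        have e2 : k - 1 + 1 = k := by omega
        rw [e1, e2]; exact hkk.symm)
      omega
    · rw [if_neg hk0, if_neg hk0'] at hkk
      have h5 := @hPinj (k - 1) (Set.mem_Iio.2 (by omega)) (k' - 1) (Set.mem_Iio.2 (by omega)) (by
        show P (k - 1 + 1) = P (k' - 1 + 1)
        have e1 : k - 1 + 1 = k := by omega
        have e2 : k' - 1 + 1 = k' := by omega
        rw [e1, e2]; exact hkk)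
      omega
  have hsurj0 : ∀ y : H, ∃ k, k < n ∧ P k = y := by
    intro y
    obtain ⟨k, hk, hky⟩ := hsurj y
    by_cases hkn : k + 1 = n
    · exact ⟨0, hpos, by rw [hP0, ← hPn, ← hkn]; exact hky⟩
    · exact ⟨k + 1, by omega, hky⟩
  choose ix hix using hsurj0
  have hixP : ∀ k, k < n → ix (P k) = k := by
    intro k hk
    exact hinj0 (Set.mem_Iio.2 (hix _).1) (Set.mem_Iio.2 hk) (hix (P k)).2
  refine hc_of_fun (fun y => P (ix y + 1)) ?_ ?_ ?_
  · intro y
    have e : y⁻¹ * P (ix y + 1) = c (ix y) := by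
      rw [hPs, (hix y).2, inv_mul_cancel_left]
    rw [e, Set.mem_ofPred_eq, hc _ (hix y).1]
    exact (hb _).1
  · intro y y' hyy
    have := hPinj (Set.mem_Iio.2 (hix y).1) (Set.mem_Iio.2 (hix y').1) hyy
    rw [← (hix y).2, ← (hix y').2, this]
  · rintro S ⟨x, hx⟩ hS
    -- from `x` we reach `P n = 1` and then everything
    have step : ∀ d k, k < n → P k ∈ S → k + d ≤ n → P (k + d) ∈ S := by
      intro d
      induction d with
      | zero => intro k _ hk _; exact hk
      | succ d ih =>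
        intro k hk hkS hkd
        have h5 := ih k hk hkS (by omega)
        have h6 := hS _ h5
        simp only [hixP (k + d) (by omega)] at h6
        exact h6
    obtain ⟨k, hk, hkx⟩ := hix x |>.imp_left id |> fun h => (⟨ix x, h.1, h.2⟩ : ∃ k, k < n ∧ P k = x)
    have h1S : P 0 ∈ S := by
      rw [hP0, ← hPn]
      have := step (n - k) k hk (by rw [hkx]; exact hx) (by omega)
      have e : k + (n - k) = n := by omega
      rwa [e] at this
    rw [Set.eq_univ_iff_forall]
    intro y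
    have := step (ix y) 0 hpos h1S (by have := (hix y).1; omega)
    rw [zero_add, (hix y).2] at this
    exact this

/-- **The main theorem.** -/
theorem normalised_main {G : Type u} [Group G] [Finite G] (A : Set G) (hne : A.Nonempty)
    (hinv : ∀ a ∈ A, a⁻¹ ∈ A) (hgen : Subgroup.closure A = ⊤) (H : Subgroup G)
    (hH : H ≤ Subgroup.closure {s ∈ A | s ∈ H ∧ ∀ h ∈ H, h * s * h⁻¹ ∈ A} ∨
      ∃ b : Fin (Nat.card H) → G, (∀ i, b i ∈ A ∧ b i ∈ H) ∧
        Function.Injective (fun k : Fin (Nat.card H) => Fin.partialProd b k.succ) ∧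
        Fin.partialProd b (Fin.last (Nat.card H)) = 1)
    (hcomm : commutator G ≤ H ∨ (3 ≤ Nat.card H ∧ commutator G ≤
      Subgroup.closure ((H : Set G) ∪ {s ∈ A | ∀ h ∈ H, h * s * h⁻¹ ∈ A}))) :
    ∃ a : Fin (Nat.card G) → G, (∀ i, a i ∈ A) ∧
      Function.Injective (fun k : Fin (Nat.card G) => Fin.partialProd a k.succ) ∧
      (3 ≤ Nat.card H →
        Subgroup.closure ((H : Set G) ∪ {s ∈ A | ∀ h ∈ H, h * s * h⁻¹ ∈ A}) = ⊤ →
        Fin.partialProd a (Fin.last (Nat.card G)) = 1) := by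
  have hHH : HP H {h : H | (h : G) ∈ A} ∧ (3 ≤ Nat.card H → HC H {h : H | (h : G) ∈ A}) := by
    rcases hH with hH | ⟨b, hb, hb2, hb3⟩
    · obtain ⟨h1, h2⟩ := hp_or_hc_sub hinv H hH
      exact ⟨h1, fun h => h2 (by omega)⟩
    · have h1 := hc_of_listing H b hb hb2 hb3
      exact ⟨hp_of_hc h1, fun _ => h1⟩
  by_cases hc : 3 ≤ Nat.card H ∧
      Subgroup.closure ((H : Set G) ∪ {s ∈ A | ∀ h ∈ H, h * s * h⁻¹ ∈ A}) = ⊤
  · obtain ⟨a, h1, h2, h3⟩ := listing_closed (lift_hc hinv H hc.1 (hHH.2 hc.1) hc.2)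
    exact ⟨a, h1, h2, fun _ _ => h3⟩
  · have hp : HP G A := by
      rcases hcomm with h | ⟨h3, h⟩
      · exact hp_comm hinv hgen H h hHH.1
      · exact hp_comm hinv hgen _ h (hp_of_hc (lift_sub hinv H h3 (hHH.2 h3) _ rfl))
    obtain ⟨a, h1, h2⟩ := listing hne hp
    exact ⟨a, h1, h2, fun h3 h4 => absurd ⟨h3, h4⟩ hc⟩

end Pool.Agent.H65T.NC
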